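import Pool.Agent.Lib.DT.B.Spec

/-!
# Theorem DT, Part B, module B11: the smoothed function `g`
-/

set_option autoImplicit false

open scoped Pointwise Topology
open Filter

noncomputable section

namespace Pool.Agent.DT

open Pool.Agent.MuZ Pool.Agent.FW NumberField IsDedekindDomain
open Pool.Agent.DI (io ofC io_inj exists_io io_ofC ofC_io VP MP UP TP ex)
open Pool.Agent.DKB (inL wp wd zt kz KK IsRp IsHf rr)

variable {k t : ℕ}

open Classical in
/-- A half system gives a complete system. -/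
theorem B11_sys [SqT k t] {m b : Ideal (OO k t)} (hm : m ≠ ⊥) (hb : b ≠ ⊥) (hm2 : PrI m (sN k t 2))
    {S : Finset ℂ} (hS : IsHalf m b S) :
    IsSys m b (insert 0 (S ∪ S.image fun u => -u)) ∧
      (∀ u ∈ S, u + u ∉ Lam b) ∧
      ∀ F : ℂ → ℂ, ∑ u ∈ insert 0 (S ∪ S.image fun u => -u), F u = F 0 + ∑ u ∈ S, (F u + F (-u)) := by
  have h2 : ∀ u ∈ S, u + u ∉ Lam b := by
    intro u hu h
    refine (hS.mem u hu).2 ((aL5 k t m b (sN k t 2) hm hb hm2).1 u ?_ (hS.mem u hu).1)
    have e : toC ((2 : ℕ) : OO k t) * u = u + u := by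
      rw [toC_nat]
      push_cast
      ring
    exact lam_sp.2 (by rw [e]; exact h)
  have hd : ∀ u ∈ S, ∀ u' ∈ S, u + u' ∉ Lam b := by
    intro u hu u' hu' h
    have := hS.uni u hu u' hu' (Or.inr h)
    rw [← this] at h
    exact h2 u hu h
  have h0 : (0 : ℂ) ∈ Lam b := lam_zero b
  refine ⟨⟨fun u hu => ?_, fun z hz => ?_, fun u hu u' hu' h => ?_⟩, h2, fun F => ?_⟩
  · rw [Finset.mem_insert, Finset.mem_union, Finset.mem_image] at hu
    rcases hu with rfl | hu | ⟨v, hv, rfl⟩
    · exact lam_zero _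
    · exact (hS.mem u hu).1
    · exact lam_neg (hS.mem v hv).1
  · by_cases hzb : z ∈ Lam b
    · exact ⟨0, Finset.mem_insert_self _ _, by rwa [sub_zero]⟩
    · obtain ⟨u, hu, h | h⟩ := hS.ex z hz hzb
      · exact ⟨u, Finset.mem_insert_of_mem (Finset.mem_union_left _ hu), h⟩
      · refine ⟨-u, Finset.mem_insert_of_mem (Finset.mem_union_right _ (Finset.mem_image_of_mem _ hu)), ?_⟩
        rwa [sub_neg_eq_add]
  · rw [Finset.mem_insert, Finset.mem_union, Finset.mem_image] at hu hu'
    rcases hu with rfl | hu | ⟨v, hv, rfl⟩ <;> rcases hu' with rfl | hu' | ⟨v', hv', rfl⟩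
    · rfl
    · rw [zero_sub] at h
      exact absurd (lam_neg_iff.1 h) (hS.mem _ hu').2
    · rw [sub_neg_eq_add, zero_add] at h
      exact absurd h (hS.mem _ hv').2
    · rw [sub_zero] at h
      exact absurd h (hS.mem _ hu).2
    · exact hS.uni u hu u' hu' (Or.inl h)
    · rw [sub_neg_eq_add] at h
      exact absurd h (hd u hu v' hv')
    · rw [sub_zero] at h
      exact absurd (lam_neg_iff.1 h) (hS.mem _ hv).2
    · have h3 : -(v + u') ∈ Lam b := by
        have : -(v + u') = -v - u' := by ring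
        rwa [this]
      exact absurd (lam_neg_iff.1 h3) (hd v hv u' hu')
    · have h3 : -(v - v') ∈ Lam b := by
        have : -(v - v') = -v - -v' := by ring
        rwa [this]
      rw [hS.uni v hv v' hv' (Or.inl (lam_neg_iff.1 h3))]
  · rw [Finset.sum_insert, Finset.sum_union, Finset.sum_image, ← Finset.sum_add_distrib]
    · intro u _ u' _ h
      exact neg_injective h
    · rw [Finset.disjoint_left]
      intro u hu hu'
      rw [Finset.mem_image] at hu'
      obtain ⟨v, hv, rfl⟩ := hu'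
      have := hd _ hu v hv
      rw [neg_add_cancel] at this
      exact this h0
    · rw [Finset.mem_union, Finset.mem_image]
      rintro (h | ⟨v, hv, h⟩)
      · exact (hS.mem _ h).2 h0
      · rw [neg_eq_zero] at h
        rw [h] at hv
        exact (hS.mem _ hv).2 h0

theorem sB11 (h1 : K_Cst) (h2 : K_Kz) (h3 : S_B9) (h4 : S_B10) (h5 : S_B14) : S_B11 := by
  classical
  intro k t _ m b hm hb hm2 _ z hz
  have h6 := DKB.gInj
  obtain ⟨hS, hcard⟩ := h5 k t m b hm hb hm2
  obtain ⟨hR, _, hsum⟩ := B11_sys hm hb hm2 hS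
  have hzb : z ∉ Lam b := fun h => hz (lam_mono h)
  have hr2 : r2 b ≠ 0 := (h1 k t b hb).1
  have hX : ∀ u : ℂ, r2 b * (XC b z - XC b u) = wp (LP b) z - wp (LP b) u := by
    intro u
    unfold XC
    rw [← wpC_eq]
    field_simp
    ring
  have hK := (h3 k t m b hm hb _ hR).2.2 z hz
  rw [hsum (fun u => KC b (z + u))] at hK
  simp only [add_zero] at hK
  have hterm : ∀ u ∈ hs m b, KC b (z + u) + KC b (z + -u) =
      2 * KC b z + wdC b z / (r2 b * (XC b z - XC b u)) := by
    intro u hu
    obtain ⟨hu1, hu2⟩ := hS.mem u hu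
    have n1 : z + u ∉ Lam (m * b) := fun h => hz (by
      have := lam_sub h hu1
      rwa [add_sub_cancel_right] at this)
    have n2 : z - u ∉ Lam (m * b) := fun h => hz (by
      have := lam_add h hu1
      rwa [sub_add_cancel] at this)
    have n1' : z + u ∉ Lam b := fun h => n1 (lam_mono h)
    have n2' : z - u ∉ Lam b := fun h => n2 (lam_mono h)
    have hne : r2 b * (XC b z - XC b u) ≠ 0 := by
      rw [hX]
      refine sub_ne_zero.2 fun h => ?_
      rcases ((h6 (LP b)).1 z u ((notL_LP hb).2 hzb) ((notL_LP hb).2 hu2)).1 h with h5 | h5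
      · exact n2' ((inL_LP hb).1 h5)
      · exact n1' ((inL_LP hb).1 h5)
    have h5 := (h4 k t b hb).2.2.2 z u hzb hu2 n1' n2'
    rw [← sub_eq_add_neg, ← h5, mul_div_cancel_right₀ _ hne]
    ring
  rw [Finset.sum_congr rfl hterm, Finset.sum_add_distrib, Finset.sum_const, nsmul_eq_mul] at hK
  have hN : (NI m : ℂ) = 2 * (hs m b).card + 1 := by
    rw [← hcard]
    push_cast
    ring
  unfold gC
  rw [hK, hN]
  have e : KC b z + (((hs m b).card : ℂ) * (2 * KC b z) +
      ∑ u ∈ hs m b, wdC b z / (r2 b * (XC b z - XC b u))) - (2 * ((hs m b).card : ℂ) + 1) * KC b z =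
      ∑ u ∈ hs m b, wdC b z / (r2 b * (XC b z - XC b u)) := by ring
  rw [e, Finset.sum_div]
  refine Finset.sum_congr rfl fun u _ => ?_
  rw [div_div]
  congr 1
  ring

end Pool.Agent.DT
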