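import Pool.Agent.Lib.DT.B.Spec

/-!
# Theorem DT, Part B, module B12: the framing
-/

set_option autoImplicit false

open scoped Pointwise Topology
open Filter

noncomputable section

namespace Pool.Agent.DT

open Pool.Agent.MuZ Pool.Agent.FW NumberField IsDedekindDomain
open Pool.Agent.DI (io ofC io_inj exists_io io_ofC ofC_io VP MP UP TP ex)
open Pool.Agent.DKB (inL wp wd zt kz KK IsRp IsHf rr)

variable {k t : ℕ}

/-- The basic facts on the point `S₀` and the framing. -/
private theorem B12_basic [SqT k t] (h1 : K_Cst) (h2 : K_Kz) (h5 : DKB.G_Zdp) {b : Ideal (OO k t)}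
    (hb : b ≠ ⊥) (hP : PrI b (ppb k t)) :
    S0 k t ∉ Lam b ∧ (S0 k t - ptS b ∈ Lam b ∨ S0 k t + ptS b ∈ Lam b) ∧
    wdC b (S0 k t) ≠ 0 ∧ wdC b (S0 k t) ^ 2 = r2 b ^ 3 ∧
    w2C b (S0 k t) = r2 b ^ 2 * AC b ∧ wpC b (S0 k t) = wpC b (ptS b) ∧
    fr b = w2C b (S0 k t) / wdC b (S0 k t) ∧ fr b = -6 * KC b (S0 k t) := by
  obtain ⟨hσ, hor0⟩ := (aL6 k t b hb).2.2.2.2.2.2.2.2.2 hP
  obtain ⟨c1, c2, c3, c4, c5, c6, c7, c8⟩ := h1 k t b hb
  have hor : S0 k t - ptS b ∈ Lam b ∨ S0 k t + ptS b ∈ Lam b := by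
    rcases hor0 with h | h
    · left
      have := lam_neg h
      rwa [neg_sub] at this
    · right
      rwa [add_comm] at h
  have hd2 : wdC b (S0 k t) ^ 2 = r2 b ^ 3 := by rw [wdC_congr' hb hor, c4]
  have hd : wdC b (S0 k t) ≠ 0 := by
    intro h
    rw [h] at hd2
    exact c1 (pow_eq_zero_iff (by norm_num) |>.1 (by rw [← hd2]; ring : r2 b ^ 3 = 0))
  have hp : wpC b (S0 k t) = wpC b (ptS b) := wpC_congr' hb hor
  have hw2 : w2C b (S0 k t) = r2 b ^ 2 * AC b := by
    rw [← c5]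
    unfold w2C
    rw [hp]
  have hfr : fr b = w2C b (S0 k t) / wdC b (S0 k t) := by
    unfold fr
    rw [if_pos ⟨hb, hP⟩]
  have h3 : 3 * S0 k t ∈ Lam b := by
    have h3S := three_ptS hb
    rcases hor with h | h
    · have h' := lam_nat 3 h
      have e : 3 * S0 k t = ((3 : ℕ) : ℂ) * (S0 k t - ptS b) + 3 * ptS b := by
        push_cast
        ring
      rw [e]
      exact lam_add h' h3S
    · have h' := lam_nat 3 h
      have e : 3 * S0 k t = ((3 : ℕ) : ℂ) * (S0 k t + ptS b) - 3 * ptS b := by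
        push_cast
        ring
      rw [e]
      exact lam_sub h' h3S
  have hz := (h5 (LP b)).2 (S0 k t) ((notL_LP hb).2 hσ) ((inL_LP hb).2 h3)
  rw [← (h2 k t b hb).2.1 _ hσ] at hz
  refine ⟨hσ, hor, hd, hd2, hw2, hp, hfr, ?_⟩
  rw [hfr, div_eq_iff hd]
  exact hz.symm

/-- All systems have the same cardinality. -/
private theorem B12_card [SqT k t] {a b : Ideal (OO k t)} {R R' : Finset ℂ} (hR : IsSys a b R)
    (hR' : IsSys a b R') : R.card ≤ R'.card := by
  classical
  choose! f hf1 hf2 using hR'.ex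
  refine Finset.card_le_card_of_injOn f (fun u hu => hf1 u (hR.mem u hu)) ?_
  intro u hu v hv huv
  refine hR.uni u hu v hv ?_
  have h1 := hf2 u (hR.mem u hu)
  have h2 := hf2 v (hR.mem v hv)
  rw [huv] at h1
  have e : u - v = (u - f v) - (v - f v) := by ring
  rw [e]
  exact lam_sub h1 h2

/-- An element which is `1` or `-1` modulo an ideal is prime to it. -/
private theorem B12_pri {α : OO k t} {n : Ideal (OO k t)} (h : α - 1 ∈ n ∨ α + 1 ∈ n) :
    PrI (sp α) n := by
  unfold PrI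
  rw [Ideal.eq_top_iff_one]
  rcases h with h | h
  · refine Submodule.mem_sup.2 ⟨α, Ideal.mem_span_singleton_self α, -(α - 1), n.neg_mem h, ?_⟩
    ring
  · refine Submodule.mem_sup.2 ⟨-α, (sp α).neg_mem (Ideal.mem_span_singleton_self α), α + 1, h, ?_⟩
    ring

/-- Homogeneity: the functions of the lattice `Lam (α b)`. -/
private theorem B12_scl [SqT k t] {b : Ideal (OO k t)} (hb : b ≠ ⊥) {α : OO k t} (hα : α ≠ 0)
    (z : ℂ) : wdC (sp α * b) z = toC α ^ 3 * wdC b (toC α * z) ∧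
      w2C (sp α * b) z = toC α ^ 4 * w2C b (toC α * z) := by
  have hab : sp α * b ≠ ⊥ := mul_ne_zero (sp_ne hα) hb
  have hc : toC α ≠ 0 := toC_ne hα
  obtain ⟨g1, g2, -, g4, -⟩ := DKB.gScl.1 (LP b) (LP (sp α * b)) (toC α) hc (fun z => by
    rw [inL_LP hab, inL_LP hb, lam_sp])
  refine ⟨?_, ?_⟩
  · rw [wdC_eq, wdC_eq]
    exact g2 z
  · unfold w2C
    rw [wpC_eq, wpC_eq, g1 z, g4]
    ring

theorem sB12 (h1 : K_Cst) (h2 : K_Kz) (h3 : S_B9) (h4 : S_B10) (h5 : DKB.G_Zdp) : S_B12 := by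
  classical
  intro k t _ b hb hP
  obtain ⟨hσ, hor, hd, hd2, hw2, hp, hfr, hfK⟩ := B12_basic h1 h2 h5 hb hP
  have hs : r2 b ≠ 0 := (h1 k t b hb).1
  have hfs : fr b * r2 b = AC b * wdC b (S0 k t) := by
    rw [hfr, hw2, div_mul_eq_mul_div, div_eq_iff hd]
    linear_combination (-AC b) * hd2
  refine ⟨hor, hd, hfs, ?_, hfK, ?_, ?_, ?_⟩
  · rw [hfr, hw2, div_pow, hd2, div_eq_iff (pow_ne_zero 3 hs)]
    ring
  · intro α hα hα1
    have hab : sp α * b ≠ ⊥ := mul_ne_zero (sp_ne hα) hb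
    have hPα : PrI (sp α * b) (ppb k t) := ((aO6 k t).1 _ _ _).2 ⟨B12_pri (Or.inl hα1), hP⟩
    obtain ⟨-, -, -, -, -, -, hfr', -⟩ := B12_basic h1 h2 h5 hab hPα
    obtain ⟨g1, g2⟩ := B12_scl hb hα (S0 k t)
    have hl := (aL6 k t b hb).2.2.2.2.2.2.2.1 α hα1
    have e1 : wdC b (toC α * S0 k t) = wdC b (S0 k t) := wdC_congr hb hl
    have e2 : w2C b (toC α * S0 k t) = w2C b (S0 k t) := by
      unfold w2C
      rw [wpC_congr hb hl]
    have hc : toC α ≠ 0 := toC_ne hα
    rw [hfr', g1, g2, e1, e2, hfr]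
    field_simp
  · intro α hα hα1
    have hab : sp α * b ≠ ⊥ := mul_ne_zero (sp_ne hα) hb
    have hPα : PrI (sp α * b) (ppb k t) := ((aO6 k t).1 _ _ _).2 ⟨B12_pri (Or.inr hα1), hP⟩
    obtain ⟨-, -, -, -, -, -, hfr', -⟩ := B12_basic h1 h2 h5 hab hPα
    obtain ⟨g1, g2⟩ := B12_scl hb hα (S0 k t)
    have hl := (aL6 k t b hb).2.2.2.2.2.2.2.2.1 α hα1
    have e1 : wdC b (toC α * S0 k t) = -wdC b (S0 k t) := by
      rw [← wdC_neg]
      exact wdC_congr hb (by rwa [sub_neg_eq_add])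
    have e2 : w2C b (toC α * S0 k t) = w2C b (S0 k t) := by
      unfold w2C
      rw [wpC_congr' hb (Or.inr hl)]
    have hc : toC α ≠ 0 := toC_ne hα
    rw [hfr', g1, g2, e1, e2, hfr]
    field_simp
  · intro a ha hPa R hR
    have hab : a * b ≠ ⊥ := mul_ne_zero ha hb
    have hPab : PrI (a * b) (ppb k t) := ((aO6 k t).1 _ _ _).2 ⟨hPa, hP⟩
    obtain ⟨hσ', -, -, -, -, -, -, hfK'⟩ := B12_basic h1 h2 h5 hab hPab
    have hXs : XC b (S0 k t) = 0 := by
      unfold XC
      rw [hp, sub_self, zero_div]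
    have hX : ∀ u ∈ R, u ∉ Lam b → XC b u ≠ 0 := by
      intro u hu hub h
      have h6 : wp (LP b) u = wp (LP b) (S0 k t) := by
        rw [← wpC_eq, hp]
        unfold XC at h
        rcases div_eq_zero_iff.1 h with h | h
        · exact sub_eq_zero.1 h
        · exact absurd h hs
      rcases ((DKB.gInj (LP b)).1 u (S0 k t) ((notL_LP hb).2 hub) ((notL_LP hb).2 hσ)).1 h6 with h | h
      · rw [inL_LP hb] at h
        refine hσ' ?_
        have e : S0 k t = u - (u - S0 k t) := by ring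
        rw [e]
        exact lam_sub (hR.mem u hu) (lam_mono h)
      · rw [inL_LP hb] at h
        refine hσ' ?_
        have e : S0 k t = (u + S0 k t) - u := by ring
        rw [e]
        exact lam_sub (lam_mono h) (hR.mem u hu)
    refine ⟨hX, ?_⟩
    obtain ⟨R', hR', hcard'⟩ := (aL3 k t a b ha hb).2.2
    have hcard : R.card = NI a := by
      rw [← hcard']
      exact le_antisymm (B12_card hR hR') (B12_card hR' hR)
    have hK1 := (h3 k t a b ha hb R hR).2.2 (S0 k t) hσ'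
    have hK2 := (h3 k t a b ha hb R hR).2.2 (-S0 k t) (fun h => hσ' (lam_neg_iff.1 h))
    rw [(h4 k t (a * b) hab).2.2.1] at hK2
    have hodd := (h4 k t b hb).2.2.1
    have hper := (h4 k t b hb).2.1
    have hterm : ∀ u ∈ R, KC b (S0 k t + u) - KC b (-S0 k t + u) =
        2 * KC b (S0 k t) - wdC b (S0 k t) / r2 b * (if u ∈ Lam b then 0 else 1 / XC b u) := by
      intro u hu
      by_cases hub : u ∈ Lam b
      · rw [if_pos hub, hper _ _ hub, hper _ _ hub, hodd]
        ring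
      · rw [if_neg hub]
        have n1 : S0 k t + u ∉ Lam b := fun h => hσ' (by
          have := lam_sub (lam_mono (a := a) h) (hR.mem u hu)
          rwa [add_sub_cancel_right] at this)
        have n2 : S0 k t - u ∉ Lam b := fun h => hσ' (by
          have := lam_add (lam_mono (a := a) h) (hR.mem u hu)
          rwa [sub_add_cancel] at this)
        have h7 := (h4 k t b hb).2.2.2 (S0 k t) u hσ hub n1 n2
        have h8 : KC b (-S0 k t + u) = -KC b (S0 k t - u) := by
          rw [← hodd]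
          congr 1
          ring
        have hXu := hX u hu hub
        rw [hXs, zero_sub] at h7
        rw [h8]
        field_simp
        linear_combination (-1) * h7
    have hsum : 2 * KC (a * b) (S0 k t) = R.card * (2 * KC b (S0 k t)) -
        wdC b (S0 k t) / r2 b * ∑ u ∈ R, (if u ∈ Lam b then 0 else 1 / XC b u) := by
      have e : 2 * KC (a * b) (S0 k t) = ∑ u ∈ R, (KC b (S0 k t + u) - KC b (-S0 k t + u)) := by
        rw [Finset.sum_sub_distrib, ← hK1, ← hK2]
        ring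
      rw [e, Finset.sum_congr rfl hterm, Finset.sum_sub_distrib, Finset.sum_const, nsmul_eq_mul,
        Finset.mul_sum]
    rw [hcard] at hsum
    have hfw : fr b = AC b * wdC b (S0 k t) / r2 b := by
      rw [eq_div_iff hs]
      exact hfs
    have e3 : AC b * fr (a * b) = -3 * AC b * (2 * KC (a * b) (S0 k t)) := by
      rw [hfK']
      ring
    rw [e3, hsum]
    have e4 : AC b * wdC b (S0 k t) / r2 b = -6 * KC b (S0 k t) := by rw [← hfw, hfK]
    have e5 : fr b * (NI a * AC b + 3 * ∑ u ∈ R, (if u ∈ Lam b then 0 else 1 / XC b u)) =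
        fr b * (NI a * AC b) + 3 * (AC b * wdC b (S0 k t) / r2 b) *
          ∑ u ∈ R, (if u ∈ Lam b then 0 else 1 / XC b u) := by
      rw [← hfw]
      ring
    rw [e5, hfK]
    ring

end Pool.Agent.DT
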