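import Pool.Agent.Lib.DT.B.Spec

/-!
# Theorem DT, Part B, module B16: the divisor argument
-/

set_option autoImplicit false

open scoped Pointwise Topology
open Filter

noncomputable section

namespace Pool.Agent.DT

open Pool.Agent.MuZ Pool.Agent.FW NumberField IsDedekindDomain
open Pool.Agent.DI (io ofC io_inj exists_io io_ofC ofC_io VP MP UP TP ex)
open Pool.Agent.DKB (inL wp wd zt kz KK IsRp IsHf rr)

private theorem B16_s {k t : ℕ} {b : Ideal (OO k t)} (h : r2 b ≠ 0) (z z' : ℂ) :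
    wpC b z - wpC b z' = r2 b * (XC b z - XC b z') := by
  unfold XC
  field_simp
  ring

theorem sB16 (h1 : K_Cst) (h3 : S_B14) : S_B16 := by
  intro k t _ l m b hl hm hb hm2 hlm R hR
  have hlb : l * b ≠ ⊥ := mul_ne_zero hl hb
  have hmb : m * b ≠ ⊥ := mul_ne_zero hm hb
  have hmlb : m * (l * b) ≠ ⊥ := mul_ne_zero hm hlb
  have sb : r2 b ≠ 0 := (h1 k t b hb).1
  have sl : r2 (l * b) ≠ 0 := (h1 k t _ hlb).1
  obtain ⟨hS, cS⟩ := h3 k t m b hm hb hm2
  obtain ⟨hS', cS'⟩ := h3 k t m (l * b) hm hlb hm2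
  have hcard : (hs m b).card = (hs m (l * b)).card := by omega
  have hml : m ⊔ l = ⊤ := by rw [sup_comm]; exact hlm
  have two : ∀ b' : Ideal (OO k t), b' ≠ ⊥ → ∀ u : ℂ, inL (LP (m * b')) u → inL (LP b') (u + u) →
      inL (LP b') u := by
    intro b' hb' u hu huu
    rw [inL_LP (mul_ne_zero hm hb')] at hu
    rw [inL_LP hb'] at huu ⊢
    refine (aL5 k t m b' (sN k t 2) hm hb' hm2).1 u ?_ hu
    rw [sN, lam_sp]
    have e : toC (((2 : ℕ) : OO k t)) * u = u + u := by
      rw [toC_nat]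
      push_cast
      ring
    rw [e]
    exact huu
  have hL4 := (aL4 k t b hb).2 m l hm hl hml
  obtain ⟨c, hc, H⟩ := DKB.gPrC (LP b) (LP (m * b)) (LP (l * b)) (LP (m * (l * b))) R (hs m b)
    (hs m (l * b)) (hR.rp hl hb) (hS.hf hm hb) (hS'.hf hm hlb) hcard
    (fun z hz => by
      rw [inL_LP hmb]
      exact lam_mono ((inL_LP hb).1 hz))
    (two b hb) (two (l * b) hlb)
    (fun z hz hz' => by
      rw [inL_LP hmb] at hz
      rw [inL_LP hlb] at hz'
      rw [inL_LP hb]
      exact hL4.1 z hz hz')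
    (fun z => by
      rw [inL_LP hmlb]
      constructor
      · intro hz
        rw [← mul_assoc] at hz
        obtain ⟨z', h4, z'', h5, h6⟩ := hL4.2 z hz
        exact ⟨z', z'', (inL_LP hmb).2 h4, (inL_LP hlb).2 h5, h6⟩
      · rintro ⟨x, x', h4, h5, h6⟩
        rw [inL_LP hmb] at h4
        rw [inL_LP hlb] at h5
        rw [h6]
        refine lam_add ?_ (lam_mono h5)
        rw [mul_left_comm]
        exact lam_mono h4)
  refine ⟨c * r2 (l * b) ^ (hs m (l * b)).card / r2 b ^ ((hs m b).card * R.card), ?_, ?_⟩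
  · exact div_ne_zero (mul_ne_zero hc (pow_ne_zero _ sl)) (pow_ne_zero _ sb)
  · intro z hz
    have hz' : ¬ inL (LP (m * (l * b))) z := by
      rw [notL_LP hmlb, mul_left_comm, ← mul_assoc]
      exact hz
    have H1 := H z hz'
    have e1 : ∏ v ∈ R, ∏ u ∈ hs m b, (wp (LP b) (z + v) - wp (LP b) u) =
        r2 b ^ ((hs m b).card * R.card) *
          ∏ v ∈ R, ∏ u ∈ hs m b, (XC b (z + v) - XC b u) := by
      rw [pow_mul, ← Finset.prod_const, ← Finset.prod_mul_distrib]
      refine Finset.prod_congr rfl fun v _ => ?_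
      rw [← Finset.prod_const, ← Finset.prod_mul_distrib]
      refine Finset.prod_congr rfl fun u _ => ?_
      rw [← wpC_eq]
      exact B16_s sb _ _
    have e2 : ∏ u ∈ hs m (l * b), (wp (LP (l * b)) z - wp (LP (l * b)) u) =
        r2 (l * b) ^ (hs m (l * b)).card *
          ∏ u ∈ hs m (l * b), (XC (l * b) z - XC (l * b) u) := by
      rw [← Finset.prod_const, ← Finset.prod_mul_distrib]
      refine Finset.prod_congr rfl fun u _ => ?_
      rw [← wpC_eq]
      exact B16_s sl _ _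
    rw [e1, e2] at H1
    have h9 : r2 b ^ ((hs m b).card * R.card) ≠ 0 := pow_ne_zero _ sb
    rw [div_mul_eq_mul_div, eq_div_iff h9]
    linear_combination H1

end Pool.Agent.DT
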