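import Pool.Agent.Lib.DT.B.Spec

/-!
# Theorem DT, Part B: `S_B2`, the curve
-/

set_option autoImplicit false

open scoped Pointwise Topology
open Filter

noncomputable section

namespace Pool.Agent.DT

open Pool.Agent.MuZ Pool.Agent.FW NumberField IsDedekindDomain
open Pool.Agent.DI (io ofC io_inj exists_io io_ofC ofC_io VP MP UP TP ex)
open Pool.Agent.DKB (inL wp wd zt kz KK IsRp IsHf rr)

theorem sB2 (h1 : K_Cst) : S_B2 := by
  intro k t _ b hb z hz
  obtain ⟨hs, hd, hA, hs3, hw2, hS, hg2, hg3⟩ := h1 k t b hb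
  have hzL : ¬ inL (LP b) z := (notL_LP hb).2 hz
  -- `℘ = s X + e`
  have hwp : ∀ w : ℂ, wp (LP b) w = r2 b * XC b w + r2 b * AC b ^ 2 / 12 := by
    intro w
    unfold XC
    rw [← hS, mul_div_cancel₀ _ hs, sub_add_cancel]
    rfl
  have hX : XC b = fun w => (wp (LP b) w - wpC b (ptS b)) / r2 b := rfl
  refine ⟨?_, ?_, ?_, ?_, ?_⟩
  · have h3 := DKB.wd_sq hzL
    rw [hwp, hg2, hg3] at h3
    change wd (LP b) z ^ 2 = _
    rw [h3]
    unfold WC2
    ring
  · rw [hX]
    exact ((DKB.analyticAt_wp hzL).sub analyticAt_const).div_const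
  · exact DKB.analyticAt_wd hzL
  · rw [hX]
    exact ((DKB.hasDerivAt_wp hzL).sub_const _).div_const _
  · have h3 := (DKB.gExp (LP b)).2.1 z hzL
    have e : r2 b ^ 2 * (6 * XC b z ^ 2 + AC b ^ 2 * XC b z + AC b) =
        6 * wp (LP b) z ^ 2 - (LP b).g₂ / 2 := by
      rw [hwp, hg2]
      ring
    rw [e]
    exact h3

end Pool.Agent.DT
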