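import Pool.Agent.Lib.DT.B.Spec

/-!
# Theorem DT, Part B, module B4: translation by the point `S`, points of order `ppb ^ 2`
-/

set_option autoImplicit false

open scoped Pointwise Topology
open Filter

noncomputable section

namespace Pool.Agent.DT

open Pool.Agent.MuZ Pool.Agent.FW NumberField IsDedekindDomain
open Pool.Agent.DI (io ofC io_inj exists_io io_ofC ofC_io VP MP UP TP ex)
open Pool.Agent.DKB (inL wp wd zt kz KK IsRp IsHf rr)

variable {k t : ℕ}

private theorem B4_int [SqT k t] {b : Ideal (OO k t)} {z : ℂ} (n : ℤ) (h : z ∈ Lam b) :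
    (n : ℂ) * z ∈ Lam b := by
  rw [← toC_int (k := k) (t := t)]
  exact lam_mul _ h

/-- The value of `X` at a multiple. -/
private theorem B4_key [SqT k t] {b : Ideal (OO k t)} (hb : b ≠ ⊥) {z u w y : ℂ} (n m : ℤ)
    (h : z - u ∈ Lam b ∨ z + u ∈ Lam b) (hy : y = n * z)
    (hw : w = n * u + m * (9 * ptt b) ∨ w = -(n * u + m * (9 * ptt b))) : XC b y = XC b w := by
  have h9 := B4_int m (nine_ptt hb)
  have h1 : y - (n * u + m * (9 * ptt b)) ∈ Lam b ∨ y + (n * u + m * (9 * ptt b)) ∈ Lam b := by
    rcases h with h | h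
    · left
      have := lam_sub (B4_int n h) h9
      have e : y - (n * u + m * (9 * ptt b)) = (n : ℂ) * (z - u) - m * (9 * ptt b) := by
        rw [hy]; ring
      rw [e]
      exact this
    · right
      have := lam_add (B4_int n h) h9
      have e : y + (n * u + m * (9 * ptt b)) = (n : ℂ) * (z + u) + m * (9 * ptt b) := by
        rw [hy]; ring
      rw [e]
      exact this
  have h2 := XC_congr' hb h1
  rcases hw with hw | hw
  · rw [hw]
    exact h2
  · rw [hw, XC_neg]
    exact h2

theorem sB4 (h1 : K_Cst) (h2 : DKB.G_Flx) (h3 : DKB.G_Nin) : S_B4 := by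
  intro k t _ b hb
  obtain ⟨hs, hd, -, hs3, hc, -, -, -⟩ := h1 k t b hb
  have hX : ∀ z : ℂ, wpC b z - wpC b (ptS b) = r2 b * XC b z := by
    intro z
    unfold XC
    rw [mul_div_cancel₀ _ hs]
  have hn : ∀ z : ℂ, z ∉ Lam b → ¬ inL (LP b) z := fun z hz => (notL_LP hb).2 hz
  have hs2 := pow_ne_zero 2 hs
  have hs3' := pow_ne_zero 3 hs
  constructor
  · intro z hz hzS hzS'
    obtain ⟨p1, p2, p3, p4⟩ := (h2 (LP b) (ptS b) (hn _ (ptS_mem hb))
      ((inL_LP hb).2 (three_ptS hb))).2.2.1 z (hn z hz) (hn _ hzS) (hn _ hzS')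
    have hc' : 6 * wp (LP b) (ptS b) ^ 2 - (LP b).g₂ / 2 = r2 b ^ 2 * AC b := hc
    rw [hc'] at p3 p4
    rw [← wpC_eq] at p1 p2 p3 p4
    rw [← wdC_eq] at p2 p3 p4
    rw [hX z] at p1 p2 p3 p4
    rw [hX (z + ptS b)] at p2 p3 p4
    rw [hX (z - ptS b)] at p2 p3
    rw [← hs3] at p2 p3 p4
    refine ⟨fun h => p1 (by rw [h, mul_zero]), ?_, ?_, ?_⟩
    · apply mul_left_cancel₀ hs3'
      linear_combination p2
    · apply mul_left_cancel₀ hs3'
      linear_combination p3
    · apply mul_left_cancel₀ hd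
      have e : wdC b (ptS b) * (wdC b (ptS b) *
          (AC b * XC b z + 1 - 2 * XC b z ^ 2 * XC b (z + ptS b))) =
          wdC b (ptS b) ^ 2 * (AC b * XC b z + 1 - 2 * XC b z ^ 2 * XC b (z + ptS b)) := by ring
      rw [e, ← hs3]
      linear_combination p4
  · intro z hz hz'
    have hS3 : ¬ inL (LP b) (3 * ptt b) := hn _ (ptS_mem hb)
    obtain ⟨-, -, q3, q4, -⟩ := h3 (LP b) (ptt b) hS3 ((inL_LP hb).2 (nine_ptt hb))
    have hX' : ∀ z : ℂ, wp (LP b) z - wp (LP b) (3 * ptt b) = r2 b * XC b z := hX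
    rw [← r2_eq, hX', hX'] at q3 q4
    have k1 : XC b (4 * ptt b) * (1 - XC b (ptt b)) = 1 := by
      apply mul_left_cancel₀ hs2
      linear_combination q3
    have k2 : XC b (2 * ptt b) * XC b (ptt b) = XC b (ptt b) - 1 := by
      apply mul_left_cancel₀ hs2
      linear_combination q4
    have k3 : XC b (ptt b) ≠ 0 := by
      intro h
      rw [h, mul_zero] at k2
      norm_num at k2
    have k4 : XC b (ptt b) ≠ 1 := by
      intro h
      rw [h, sub_self, mul_zero] at k1
      exact zero_ne_one k1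
    have hSt : ptS b = 3 * ptt b := ptS_eq b
    -- the three cases
    have hcase : (z - ptt b ∈ Lam b ∨ z + ptt b ∈ Lam b) ∨
        (z - (ptt b + ptS b) ∈ Lam b ∨ z + (ptt b + ptS b) ∈ Lam b) ∨
        (z - (ptt b - ptS b) ∈ Lam b ∨ z + (ptt b - ptS b) ∈ Lam b) := by
      have h := (aL6a k t b hb).2.2.2.2.2.2.2.2.2 z hz hz'
      tauto
    rcases hcase with h | h | h
    · have e1 : XC b z = XC b (ptt b) :=
        B4_key hb 1 0 h (by push_cast; ring) (Or.inl (by push_cast; ring))
      have e2 : XC b (2 * z) = XC b (2 * ptt b) :=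
        B4_key hb 2 0 h (by push_cast; ring) (Or.inl (by push_cast; ring))
      have e4 : XC b (4 * z) = XC b (4 * ptt b) :=
        B4_key hb 4 0 h (by push_cast; ring) (Or.inl (by push_cast; ring))
      rw [e1, e2, e4]
      exact ⟨k1, k2, k3, k4⟩
    · rw [hSt] at h
      have e1 : XC b z = XC b (4 * ptt b) :=
        B4_key hb 1 0 h (by push_cast; ring) (Or.inl (by push_cast; ring))
      have e2 : XC b (2 * z) = XC b (ptt b) :=
        B4_key hb 2 (-1) h (by push_cast; ring) (Or.inr (by push_cast; ring))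
      have e4 : XC b (4 * z) = XC b (2 * ptt b) :=
        B4_key hb 4 (-2) h (by push_cast; ring) (Or.inr (by push_cast; ring))
      rw [e1, e2, e4]
      refine ⟨?_, ?_, ?_, ?_⟩
      · linear_combination (1 - XC b (2 * ptt b)) * k1 - XC b (4 * ptt b) * k2
      · linear_combination (-1 : ℂ) * k1
      · intro h5
        rw [h5, zero_mul] at k1
        exact zero_ne_one k1
      · intro h5
        rw [h5, one_mul] at k1
        exact k3 (by linear_combination -k1)
    · rw [hSt] at h
      have e1 : XC b z = XC b (2 * ptt b) :=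
        B4_key hb 1 0 h (by push_cast; ring) (Or.inr (by push_cast; ring))
      have e2 : XC b (2 * z) = XC b (4 * ptt b) :=
        B4_key hb 2 0 h (by push_cast; ring) (Or.inr (by push_cast; ring))
      have e4 : XC b (4 * z) = XC b (ptt b) :=
        B4_key hb 4 1 h (by push_cast; ring) (Or.inl (by push_cast; ring))
      rw [e1, e2, e4]
      refine ⟨?_, ?_, ?_, ?_⟩
      · linear_combination -k2
      · apply mul_left_cancel₀ k3
        linear_combination (XC b (4 * ptt b)) * k2 - k1 - k2
      · intro h5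
        rw [h5, zero_mul] at k2
        exact k4 (by linear_combination -k2)
      · intro h5
        rw [h5, one_mul] at k2
        have : (0 : ℂ) = -1 := by linear_combination k2
        norm_num at this

end Pool.Agent.DT
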