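import Pool.Agent.Lib.DT.B.Spec

/-!
# Theorem DT, Part B: the isogeny `ppb`
-/

set_option autoImplicit false

open scoped Pointwise Topology
open Filter

noncomputable section

namespace Pool.Agent.DT

open Pool.Agent.MuZ Pool.Agent.FW NumberField IsDedekindDomain
open Pool.Agent.DI (io ofC io_inj exists_io io_ofC ofC_io VP MP UP TP ex)
open Pool.Agent.DKB (inL wp wd zt kz KK IsRp IsHf rr)

variable {k t : ℕ}

/-- the sum formula for the system `{0, S, -S}` -/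
private theorem B5_sum (h2 : K_Pts) [SqT k t] (b : Ideal (OO k t)) (hb : b ≠ ⊥)
    {z : ℂ} (hz : z ∉ Lam (ppb k t * b)) :
    wpC (ppb k t * b) z = wpC b z + wpC b (z + ptS b) + wpC b (z - ptS b) - 2 * wpC b (ptS b) ∧
      wdC (ppb k t * b) z = wdC b z + wdC b (z + ptS b) + wdC b (z - ptS b) := by
  have hb' : ppb k t * b ≠ ⊥ := mul_ne_zero ppb_ne hb
  obtain ⟨q1, _, n1, n2, n3, _⟩ := h2 k t b hb
  have h := DKB.gSum (LP b) (LP (ppb k t * b)) {0, ptS b, -ptS b} (IsSys.rp ppb_ne hb q1) z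
    ((notL_LP hb').2 hz)
  have m1 : (0 : ℂ) ∉ ({ptS b, -ptS b} : Finset ℂ) := by
    rw [Finset.mem_insert, Finset.mem_singleton]
    rintro (h | h)
    · exact n1 h
    · exact n2 h
  rw [Finset.sum_insert m1, Finset.sum_insert m1, Finset.sum_pair n3, Finset.sum_pair n3,
    add_zero] at h
  have h0 : wp (LP b) 0 = 0 := wpC_lat hb (lam_zero b)
  have hn : wp (LP b) (-ptS b) = wp (LP b) (ptS b) := wpC_neg b (ptS b)
  rw [h0, hn, sub_zero, ← sub_eq_add_neg] at h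
  have e := h.1
  have e2 := h.2
  change wpC (ppb k t * b) z = wpC b z + ((wpC b (z + ptS b) - wpC b (ptS b)) +
    (wpC b (z - ptS b) - wpC b (ptS b))) at e
  change wdC (ppb k t * b) z = wdC b z + (wdC b (z + ptS b) + wdC b (z - ptS b)) at e2
  refine ⟨?_, ?_⟩
  · rw [e]
    ring
  · rw [e2]
    ring

/-- `℘' ` by the coordinates of the three translates -/
private theorem B5_wd (h5 : S_B4) [SqT k t] (b : Ideal (OO k t)) (hb : b ≠ ⊥) {z : ℂ}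
    (h1 : z ∉ Lam b) (h2 : z + ptS b ∉ Lam b) (h3 : z - ptS b ∉ Lam b) :
    wdC b z = wdC b (ptS b) * XC b z ^ 2 * (XC b (z - ptS b) - XC b (z + ptS b)) := by
  obtain ⟨_, _, h, h'⟩ := (h5 k t b hb).1 z h1 h2 h3
  rw [h', ← h]
  ring

/-- the formula for `℘'` of the isogeny -/
private theorem B5_wdc (h2 : K_Pts) (h5 : S_B4) [SqT k t] (b : Ideal (OO k t)) (hb : b ≠ ⊥)
    {z : ℂ} (hz : z ∉ Lam (ppb k t * b)) :
    wdC (ppb k t * b) z * XC b z ^ 3 = wdC b z * (XC b z ^ 3 - AC b * XC b z - 2) := by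
  obtain ⟨_, _, _, _, _, _, _, _, hm, _⟩ := h2 k t b hb
  obtain ⟨z1, z2, z3⟩ := hm z hz
  have h3 : 3 * ptS b ∈ Lam b := three_ptS hb
  have d1 : z + ptS b + ptS b - (z - ptS b) ∈ Lam b := by
    have e : z + ptS b + ptS b - (z - ptS b) = 3 * ptS b := by ring
    rw [e]
    exact h3
  have d2 : z - ptS b - ptS b - (z + ptS b) ∈ Lam b := by
    have e : z - ptS b - ptS b - (z + ptS b) = -(3 * ptS b) := by ring
    rw [e]
    exact lam_neg h3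
  have w1 := B5_wd h5 b hb z1 z2 z3
  have w2 := B5_wd h5 b hb z2 (fun h => z3 ((lam_sub_iff d1).1 h))
    (by rwa [add_sub_cancel_right])
  have w3 := B5_wd h5 b hb z3 (by rwa [sub_add_cancel]) (fun h => z2 ((lam_sub_iff d2).1 h))
  rw [add_sub_cancel_right, XC_congr hb d1] at w2
  rw [sub_add_cancel, XC_congr hb d2] at w3
  obtain ⟨_, p1, p2, _⟩ := (h5 k t b hb).1 z z1 z2 z3
  rw [(B5_sum h2 b hb hz).2, w2, w3, w1]
  have e : XC b z ^ 3 - AC b * XC b z - 2 =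
      XC b z * (XC b z - XC b (z + ptS b)) * (XC b z - XC b (z - ptS b)) := by
    linear_combination p2 - p1
  rw [e]
  ring

/-- algebra: the equation for `u` and the value of `℘'²` -/
private theorem B5_alg (s A u w v : ℂ) (hu : u ≠ 0) (hu1 : 1 - u ≠ 0)
    (h : u ^ 3 - (A + 3) * u ^ 2 + A * u + 1 = 0) (hv : v ^ 2 = s ^ 3 * (4 * u ^ 3 + (A * u + 1) ^ 2))
    (hw : w * u ^ 3 = v * (u ^ 3 - A * u - 2)) : w ^ 2 = s ^ 3 * (A ^ 2 + 3 * A + 9) ^ 2 := by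
  have ha : (4 * u ^ 3 + (A * u + 1) ^ 2) * (1 - u) ^ 2 = u ^ 2 * (u ^ 2 - u + 1) ^ 2 := by
    have e : (A * u + 1) * (1 - u) = -(u * (u ^ 2 - 3 * u + 1)) := by
      linear_combination h
    have e2 : (4 * u ^ 3 + (A * u + 1) ^ 2) * (1 - u) ^ 2 =
        4 * u ^ 3 * (1 - u) ^ 2 + ((A * u + 1) * (1 - u)) ^ 2 := by ring
    rw [e2, e]
    ring
  have hb : (u ^ 3 - A * u - 2) * (1 - u) = -(u ^ 2 - u + 1) ^ 2 := by
    linear_combination -h
  have hc : (A ^ 2 + 3 * A + 9) * (u ^ 2 - u) ^ 2 = (u ^ 2 - u + 1) ^ 3 := by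
    have e : A * (u ^ 2 - u) = u ^ 3 - 3 * u ^ 2 + 1 := by linear_combination -h
    have e2 : (A ^ 2 + 3 * A + 9) * (u ^ 2 - u) ^ 2 =
        (A * (u ^ 2 - u)) ^ 2 + 3 * (A * (u ^ 2 - u)) * (u ^ 2 - u) + 9 * (u ^ 2 - u) ^ 2 := by
      ring
    rw [e2, e]
    ring
  have hne : u ^ 6 * (1 - u) ^ 4 ≠ 0 := mul_ne_zero (pow_ne_zero _ hu) (pow_ne_zero _ hu1)
  apply mul_right_cancel₀ hne
  calc w ^ 2 * (u ^ 6 * (1 - u) ^ 4) = (w * u ^ 3) ^ 2 * (1 - u) ^ 4 := by ring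
    _ = v ^ 2 * (1 - u) ^ 2 * ((u ^ 3 - A * u - 2) * (1 - u)) ^ 2 := by rw [hw]; ring
    _ = s ^ 3 * ((4 * u ^ 3 + (A * u + 1) ^ 2) * (1 - u) ^ 2) *
        ((u ^ 3 - A * u - 2) * (1 - u)) ^ 2 := by rw [hv]; ring
    _ = s ^ 3 * (u ^ 2 * (u ^ 2 - u + 1) ^ 2) * (-(u ^ 2 - u + 1) ^ 2) ^ 2 := by rw [ha, hb]
    _ = s ^ 3 * u ^ 2 * ((u ^ 2 - u + 1) ^ 3) ^ 2 := by ring
    _ = s ^ 3 * (A ^ 2 + 3 * A + 9) ^ 2 * (u ^ 6 * (1 - u) ^ 4) := by rw [← hc]; ring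

theorem sB5 (h1 : K_Cst) (h2 : K_Pts) (h3 : K_Dv3) (h4 : S_B2) (h5 : S_B4) : S_B5 := by
  intro k t _ b hb
  have hb' : ppb k t * b ≠ ⊥ := mul_ne_zero ppb_ne hb
  obtain ⟨hs, hd, _, _, _, he, _, _⟩ := h1 k t b hb
  obtain ⟨hs', _, _, hs3', _, he', _, _⟩ := h1 k t _ hb'
  obtain ⟨_, _, _, _, _, _, _, _, hm, _, _, hTS, hTS', _, _, _⟩ := h2 k t b hb
  obtain ⟨_, _, _, _, _, _, _, _, _, _, _, hTc, hTc', _, _, _⟩ := h2 k t _ hb'
  obtain ⟨_, _, l3, l4⟩ := aL6a k t b hb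
  obtain ⟨a1, a2⟩ := (aL6 k t b hb).1
  have hTn : ptT b ∉ Lam (ppb k t * b) := l3.1
  have htm : ptt b ∈ Lam (ppb k t ^ 2 * b) := l4.1
  have htn : ptt b ∉ Lam (ppb k t * b) := l4.2.1
  have hX : ∀ z : ℂ, wpC b z = r2 b * XC b z + wpC b (ptS b) := by
    intro z
    have e : XC b z = (wpC b z - wpC b (ptS b)) / r2 b := rfl
    rw [e, mul_div_cancel₀ _ hs]
    ring
  -- the formula for `℘`
  have hwp : ∀ z : ℂ, z ∉ Lam (ppb k t * b) → wpC (ppb k t * b) z =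
      r2 b * (XC b z + XC b (z + ptS b) + XC b (z - ptS b)) + wpC b (ptS b) := by
    intro z hz
    rw [(B5_sum h2 b hb hz).1, hX z, hX (z + ptS b), hX (z - ptS b)]
    ring
  -- the point `t`
  obtain ⟨u, hu⟩ : ∃ u, u = XC b (ptt b) := ⟨_, rfl⟩
  obtain ⟨u1, u2, u3, u4⟩ := (h5 k t b hb).2 (ptt b) htm htn
  have e1 : ptt b + ptS b = 4 * ptt b := by rw [ptS_eq]; ring
  have e2 : ptt b - ptS b = -(2 * ptt b) := by rw [ptS_eq]; ring
  obtain ⟨t1, t2, t3⟩ := hm _ htn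
  obtain ⟨_, _, t4, _⟩ := (h5 k t b hb).1 (ptt b) t1 t2 t3
  rw [e1, e2, XC_neg] at t4
  rw [← hu] at u1 u2 u3 u4 t4
  have hu1 : 1 - u ≠ 0 := fun h => u4 (sub_eq_zero.1 h).symm
  have hstar : u ^ 3 - (AC b + 3) * u ^ 2 + AC b * u + 1 = 0 := by
    linear_combination (-(1 - u)) * t4 + u ^ 2 * u1 + u * (1 - u) * u2
  have hsum3 : u + XC b (4 * ptt b) + XC b (2 * ptt b) = AC b + 3 := by
    apply mul_right_cancel₀ (pow_ne_zero 2 u3)
    linear_combination t4 + hstar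
  have hwS : wpC (ppb k t * b) (ptS (ppb k t * b)) = r2 b * (AC b + 3) + wpC b (ptS b) := by
    rw [wpC_congr' hb' a2, hwp _ htn, e1, e2, XC_neg, ← hu, hsum3]
  have hwS12 : 12 * wpC (ppb k t * b) (ptS (ppb k t * b)) = r2 b * (AC b + 6) ^ 2 := by
    rw [hwS, he]
    ring
  have hss : ∀ z : ℂ, z ∉ Lam (ppb k t * b) →
      (wpC (ppb k t * b) z - wpC (ppb k t * b) (ptS (ppb k t * b))) * XC b z ^ 2 =
        r2 b * (XC b z ^ 3 - (AC b + 3) * XC b z ^ 2 + AC b * XC b z + 1) := by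
    intro z hz
    obtain ⟨z1, z2, z3⟩ := hm z hz
    obtain ⟨_, _, z4, _⟩ := (h5 k t b hb).1 z z1 z2 z3
    rw [hwp z hz, hwS]
    linear_combination r2 b * z4
  -- the point `T`
  obtain ⟨τ1, τ2, _⟩ := h3 k t b hb (ptT b) (ptT_mem hb) (three_ptT hb) hTS hTS'
  have hwT : 3 * (wpC (ppb k t * b) (ptT (ppb k t * b)) - wpC (ppb k t * b) (ptS (ppb k t * b))) =
      -(r2 b * (AC b ^ 2 + 3 * AC b + 9)) := by
    apply mul_right_cancel₀ (pow_ne_zero 2 τ1)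
    rw [wpC_congr' hb' a1]
    linear_combination 3 * hss _ hTn + r2 b * τ2
  -- `℘'` at `S'`
  have hwdS : wdC (ppb k t * b) (ptS (ppb k t * b)) ^ 2 =
      r2 b ^ 3 * (AC b ^ 2 + 3 * AC b + 9) ^ 2 := by
    rw [wdC_congr' hb' a2]
    refine B5_alg (r2 b) (AC b) u _ (wdC b (ptt b)) u3 hu1 hstar ?_ ?_
    · rw [((h4 k t b hb) _ t1).1, hu]
      rfl
    · rw [hu]
      exact B5_wdc h2 h5 b hb htn
  -- the number `ρ`
  have hρ : rhC b * r2 (ppb k t * b) = r2 b * (AC b ^ 2 + 3 * AC b + 9) := by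
    have e : rhC b = -3 * ((wpC (ppb k t * b) (ptT (ppb k t * b)) -
      wpC (ppb k t * b) (ptS (ppb k t * b))) / r2 (ppb k t * b)) := rfl
    rw [e, mul_assoc, div_mul_cancel₀ _ hs']
    linear_combination -hwT
  rw [hwdS] at hs3'
  have hN : AC b ^ 2 + 3 * AC b + 9 ≠ 0 := by
    intro h
    apply hs'
    rw [h] at hs3'
    exact pow_eq_zero_iff (three_ne_zero) |>.1 (by rw [hs3']; ring)
  have hρ3 : rhC b ^ 3 = AC b ^ 2 + 3 * AC b + 9 := by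
    apply mul_right_cancel₀ (pow_ne_zero 3 hs')
    rw [← mul_pow, hρ, hs3']
    ring
  have hρ0 : rhC b ≠ 0 := by
    intro h
    apply hN
    rw [← hρ3, h]
    ring
  have hρs : r2 (ppb k t * b) = rhC b ^ 2 * r2 b := by
    apply mul_right_cancel₀ hρ0
    have e : rhC b ^ 2 * r2 b * rhC b = r2 b * rhC b ^ 3 := by ring
    rw [e, hρ3, ← hρ]
    ring
  -- `K_Dv3` for the point `T'`
  have hXT : XC (ppb k t * b) (ptT (ppb k t * b)) = -rhC b / 3 := by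
    have e : rhC b = -3 * XC (ppb k t * b) (ptT (ppb k t * b)) := rfl
    rw [e]
    ring
  obtain ⟨_, τ3, _⟩ := h3 k t _ hb' (ptT (ppb k t * b)) (ptT_mem hb') (three_ptT hb') hTc hTc'
  rw [hXT] at τ3
  have hB2 : AC (ppb k t * b) ^ 2 * rhC b ^ 2 = (AC b + 6) ^ 2 := by
    apply mul_left_cancel₀ hs
    rw [← hwS12, he', hρs]
    ring
  have hB : AC (ppb k t * b) * rhC b = AC b + 6 := by
    linear_combination (-1 / 9 : ℂ) * (9 * τ3 - hB2 + hρ3)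
  refine ⟨hρ0, hρ3, hB, ?_, hρs, fun z hz => ⟨?_, (B5_sum h2 b hb hz).2, B5_wdc h2 h5 b hb hz⟩⟩
  · have e : dlC (ppb k t * b) = AC (ppb k t * b) + 3 / XC (ppb k t * b) (ptT (ppb k t * b)) := rfl
    rw [e, hXT, add_mul, hB]
    field_simp
    ring
  · have e : XC (ppb k t * b) z * r2 (ppb k t * b) =
        wpC (ppb k t * b) z - wpC (ppb k t * b) (ptS (ppb k t * b)) := by
      have e' : XC (ppb k t * b) z = (wpC (ppb k t * b) z -
        wpC (ppb k t * b) (ptS (ppb k t * b))) / r2 (ppb k t * b) := rfl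
      rw [e', div_mul_cancel₀ _ hs']
    apply mul_left_cancel₀ hs
    rw [← hss z hz, ← e, hρs]
    ring

end Pool.Agent.DT
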