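import Pool.Agent.Lib.DT.B.Spec

/-!
# Theorem DT, Part B, module B6: the isogeny `𝔭`
-/

set_option autoImplicit false

open scoped Pointwise Topology
open Filter

noncomputable section

namespace Pool.Agent.DT

open Pool.Agent.MuZ Pool.Agent.FW NumberField IsDedekindDomain
open Pool.Agent.DI (io ofC io_inj exists_io io_ofC ofC_io VP MP UP TP ex)
open Pool.Agent.DKB (inL wp wd zt kz KK IsRp IsHf rr)

/-- The algebra of the first formula. -/
private theorem B6_alg1 (s' s X' X P Q τ ρ A B : ℂ) (hs' : s' ≠ 0)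
    (h1 : s' * X' = s * (X + P - Q)) (h2 : s' * τ ^ 2 = s)
    (h3 : P * (X - τ) ^ 2 = 2 * X * τ * (X + τ) + A ^ 2 * X * τ + A * (X + τ) + 1)
    (h4 : Q * τ ^ 2 = A * τ + 1) (h5 : 3 * τ ^ 3 + A ^ 2 * τ ^ 2 + 3 * A * τ + 3 = 0)
    (h6 : ρ = -3 * τ) (h7 : A * ρ = B + 6) :
    X' * (3 * X + ρ) ^ 2 = X * (ρ ^ 2 * X ^ 2 + 3 * (B + 3) * X + 3 * ρ) := by
  have k1 : X' = τ ^ 2 * (X + P - Q) := by
    apply mul_left_cancel₀ hs'
    rw [h1, ← h2]
    ring
  have k2 : B = A * ρ - 6 := by rw [h7]; ring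
  rw [k1, k2, h6]
  linear_combination 9 * τ ^ 2 * h3 - 9 * (X - τ) ^ 2 * h4 + 9 * X * τ * h5

/-- The algebra of the last formula. -/
private theorem B6_alg2 (s' s w w' X' X ρ B : ℂ) (hs' : s' ≠ 0) (hs : s ≠ 0) (hρ : ρ ≠ 0)
    (h0 : s' * ρ ^ 2 = 9 * s)
    (h1 : X' * (3 * X + ρ) ^ 2 = X * (ρ ^ 2 * X ^ 2 + 3 * (B + 3) * X + 3 * ρ))
    (h2 : w' / s' * (3 * X + ρ) ^ 2 + X' * (2 * (3 * X + ρ) * (3 * (w / s))) =
      w / s * (ρ ^ 2 * X ^ 2 + 3 * (B + 3) * X + 3 * ρ) +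
        X * (ρ ^ 2 * (2 * X * (w / s)) + 3 * (B + 3) * (w / s))) :
    w' * (3 * X + ρ) ^ 3 * ρ =
      27 * w * (ρ * X ^ 3 + ρ ^ 2 * X ^ 2 + (2 * B + 3) * X + ρ) := by
  have k1 : w' / s' * (3 * X + ρ) ^ 3 =
      w / s * (3 * ρ * (ρ * X ^ 3 + ρ ^ 2 * X ^ 2 + (2 * B + 3) * X + ρ)) := by
    linear_combination (3 * X + ρ) * h2 - 6 * (w / s) * h1
  have k2 : w' = (w' / s') * s' := by rw [div_mul_cancel₀ _ hs']
  have k3 : w = (w / s) * s := by rw [div_mul_cancel₀ _ hs]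
  apply mul_left_cancel₀ hρ
  rw [k2, k3]
  linear_combination s' * ρ ^ 2 * k1 +
    (w / s) * (3 * ρ * (ρ * X ^ 3 + ρ ^ 2 * X ^ 2 + (2 * B + 3) * X + ρ)) * h0

theorem sB6 (h1 : K_Cst) (h2 : K_Pts) (h3 : K_Dv3) (h4 : S_B2) (h5 : S_B3) (h6 : S_B5)
    (h7 : K_B7a) : S_B6 := by
  intro k t _ b hb
  have hp : pp k t ≠ ⊥ := pp_ne
  have hpb : pp k t * b ≠ ⊥ := mul_ne_zero hp hb
  obtain ⟨hs, -, -, -⟩ := h1 k t b hb
  obtain ⟨hs', -, -, -⟩ := h1 k t (pp k t * b) hpb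
  obtain ⟨-, hsys, -, -, -, h0T, h0T', hTT, -, hmem, -, hTS, hTS', hST, hST', hα⟩ := h2 k t b hb
  -- step 1
  have h30 : (3 : OO k t) ≠ 0 := by
    intro h
    have h' := congrArg QuadraticAlgebra.re h
    have e2 : (3 : OO k t).re = 3 := QuadraticAlgebra.re_ofNat 3
    rw [e2, QuadraticAlgebra.re_zero] at h'
    omega
  obtain ⟨hX3, hA3, -, hd3, -, hr3⟩ := (h7 k t b hb).1 3 h30
  obtain ⟨hρ, hρ3, hAρ, hdρ, hrρ, -⟩ := h6 k t (pp k t * b) hpb
  rw [ppb_pp, hA3] at hAρ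
  rw [ppb_pp, hd3] at hdρ
  rw [ppb_pp, hr3, toC_three] at hrρ
  have hρτ : rhC (pp k t * b) = -3 * XC b (ptT b) := by
    have e1 : rhC (pp k t * b) = -3 * XC (sp (3 : OO k t) * b) (ptT (sp (3 : OO k t) * b)) := by
      rw [← ppb_pp]
      rfl
    rw [e1, (hX3 _).1, XC_congr' hb (hα 3 h30).1]
  obtain ⟨hτ0, hτ, -⟩ := h3 k t b hb (ptT b) (ptT_mem hb) (three_ptT hb) hTS hTS'
  have hδ : dlC b ^ 3 = AC b ^ 3 - 27 := by
    have e : dlC b = AC b + 3 / XC b (ptT b) := rfl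
    rw [e]
    field_simp
    linear_combination 9 * hτ
  have hrr : r2 (pp k t * b) * rhC (pp k t * b) ^ 2 = 9 * r2 b := by
    linear_combination -hrρ
  have hsτ : r2 (pp k t * b) * XC b (ptT b) ^ 2 = r2 b := by
    rw [hρτ] at hrr
    linear_combination hrr / 9
  have hXw : ∀ z : ℂ, wpC b z = r2 b * XC b z + wpC b (ptS b) := by
    intro z
    unfold XC
    rw [mul_div_cancel₀ _ hs]
    ring
  have hXS : XC b (ptS b) = 0 := by
    unfold XC
    rw [sub_self, zero_div]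
  -- step 2
  have hR := IsSys.rp hp hb hsys
  have hn1 : ptT b ∉ ({-ptT b} : Finset ℂ) := by
    rw [Finset.mem_singleton]
    exact hTT
  have hn0 : (0 : ℂ) ∉ ({ptT b, -ptT b} : Finset ℂ) := by
    rw [Finset.mem_insert, Finset.mem_singleton, not_or]
    exact ⟨h0T, h0T'⟩
  have hwp : ∀ z : ℂ, z ∉ Lam (pp k t * b) → wpC (pp k t * b) z =
      r2 b * (XC b z + (XC b (z + ptT b) + XC b (z - ptT b)) - 2 * XC b (ptT b)) + wpC b (ptS b) := by
    intro z hz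
    have e := (DKB.gSum (LP b) (LP (pp k t * b)) _ hR z ((notL_LP hpb).2 hz)).1
    rw [Finset.sum_insert hn0, Finset.sum_insert hn1, Finset.sum_singleton, add_zero] at e
    have e0 : wp (LP b) 0 = 0 := wpC_lat hb (lam_zero b)
    rw [e0, sub_zero, ← sub_eq_add_neg] at e
    have e1 : wpC (pp k t * b) z = wpC b z + ((wpC b (z + ptT b) - wpC b (ptT b)) +
      (wpC b (z - ptT b) - wpC b (-ptT b))) := e
    rw [e1, wpC_neg, hXw z, hXw (z + ptT b), hXw (z - ptT b), hXw (ptT b)]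
    ring
  have hwd : ∀ z : ℂ, z ∉ Lam (pp k t * b) →
      wdC (pp k t * b) z = wdC b z + wdC b (z + ptT b) + wdC b (z - ptT b) := by
    intro z hz
    have e := (DKB.gSum (LP b) (LP (pp k t * b)) _ hR z ((notL_LP hpb).2 hz)).2
    rw [Finset.sum_insert hn0, Finset.sum_insert hn1, Finset.sum_singleton, add_zero,
      ← sub_eq_add_neg, ← add_assoc] at e
    exact e
  have hSn : ptS b ∉ Lam (pp k t * b) := (aL6a k t b hb).2.2.1.2.1
  have heS : wpC (pp k t * b) (ptS (pp k t * b)) =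
      r2 b * (XC b (ptS b + ptT b) + XC b (ptS b - ptT b) - 2 * XC b (ptT b)) + wpC b (ptS b) := by
    rw [wpC_congr' hpb (aL6 k t b hb).2.1.1, hwp _ hSn, hXS]
    ring
  have hQ : (XC b (ptS b + ptT b) + XC b (ptS b - ptT b)) * XC b (ptT b) ^ 2 =
      AC b * XC b (ptT b) + 1 := by
    have e := ((h5 k t b hb).1 (ptS b) (ptT b) (ptS_mem hb) (ptT_mem hb) hST hST').1
    rw [hXS] at e
    linear_combination e
  -- the first formula
  have hF : ∀ z : ℂ, z ∉ Lam (pp k t * b) → XC (pp k t * b) z * (3 * XC b z + rhC (pp k t * b)) ^ 2 =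
      XC b z * (rhC (pp k t * b) ^ 2 * XC b z ^ 2 + 3 * (AC (pp k t * b) + 3) * XC b z +
        3 * rhC (pp k t * b)) := by
    intro z hz
    obtain ⟨m1, m2, m3⟩ := hmem z hz
    have e := ((h5 k t b hb).1 z (ptT b) m1 (ptT_mem hb) m2 m3).1
    refine B6_alg1 (r2 (pp k t * b)) (r2 b) _ _ (XC b (z + ptT b) + XC b (z - ptT b))
      (XC b (ptS b + ptT b) + XC b (ptS b - ptT b)) (XC b (ptT b)) _ (AC b) _ hs' ?_ hsτ e hQ hτ
      hρτ hAρ
    have e1 : r2 (pp k t * b) * XC (pp k t * b) z =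
        wpC (pp k t * b) z - wpC (pp k t * b) (ptS (pp k t * b)) := by
      unfold XC
      rw [mul_div_cancel₀ _ hs']
    rw [e1, hwp z hz, heS]
    ring
  refine ⟨hρ, hρ3, hAρ, ?_, hdρ, hδ, hrr, fun z hz => ⟨?_, hF z hz, hwd z hz, ?_⟩⟩
  · rw [hρτ]
    ring
  · obtain ⟨m1, m2, m3⟩ := hmem z hz
    intro h
    have e : XC b z = XC b (ptT b) := by
      rw [hρτ] at h
      linear_combination h / 3
    have e1 : wpC b z = wpC b (ptT b) := by
      rw [hXw z, hXw (ptT b), e]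
    rcases ((DKB.gInj (LP b)).1 z (ptT b) ((notL_LP hb).2 m1) ((notL_LP hb).2 (ptT_mem hb))).1 e1
      with h' | h'
    · exact m3 ((inL_LP hb).1 h')
    · exact m2 ((inL_LP hb).1 h')
  · obtain ⟨m1, m2, m3⟩ := hmem z hz
    have d1 := (h4 k t b hb z m1).2.2.2.1
    have d2 := (h4 k t (pp k t * b) hpb z hz).2.2.2.1
    have e1 : HasDerivAt (fun u => XC (pp k t * b) u * (3 * XC b u + rhC (pp k t * b)) ^ 2)
        (wdC (pp k t * b) z / r2 (pp k t * b) * (3 * XC b z + rhC (pp k t * b)) ^ 2 +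
          XC (pp k t * b) z * (2 * (3 * XC b z + rhC (pp k t * b)) * (3 * (wdC b z / r2 b)))) z := by
      have f1 : HasDerivAt (fun u => 3 * XC b u + rhC (pp k t * b)) (3 * (wdC b z / r2 b)) z :=
        (d1.const_mul 3).add_const _
      have f2 : HasDerivAt (fun u => (3 * XC b u + rhC (pp k t * b)) ^ 2)
          (2 * (3 * XC b z + rhC (pp k t * b)) * (3 * (wdC b z / r2 b))) z :=
        (f1.fun_pow 2).congr_deriv (by norm_num)
      exact d2.mul f2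
    have e2 : HasDerivAt (fun u => XC b u * (rhC (pp k t * b) ^ 2 * XC b u ^ 2 +
        3 * (AC (pp k t * b) + 3) * XC b u + 3 * rhC (pp k t * b)))
        (wdC b z / r2 b * (rhC (pp k t * b) ^ 2 * XC b z ^ 2 +
          3 * (AC (pp k t * b) + 3) * XC b z + 3 * rhC (pp k t * b)) +
          XC b z * (rhC (pp k t * b) ^ 2 * (2 * XC b z * (wdC b z / r2 b)) +
            3 * (AC (pp k t * b) + 3) * (wdC b z / r2 b))) z := by
      have f1 : HasDerivAt (fun u => XC b u ^ 2) (2 * XC b z * (wdC b z / r2 b)) z :=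
        (d1.fun_pow 2).congr_deriv (by norm_num)
      exact d1.mul (((f1.const_mul _).add (d1.const_mul _)).add_const _)
    have e3 : (fun u => XC (pp k t * b) u * (3 * XC b u + rhC (pp k t * b)) ^ 2) =ᶠ[𝓝 z]
        fun u => XC b u * (rhC (pp k t * b) ^ 2 * XC b u ^ 2 +
          3 * (AC (pp k t * b) + 3) * XC b u + 3 * rhC (pp k t * b)) := by
      filter_upwards [DKB.ev_notL ((notL_LP hpb).2 hz)] with u hu
      exact hF u ((notL_LP hpb).1 hu)
    have e4 := e1.unique (e2.congr_of_eventuallyEq e3)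
    exact B6_alg2 _ _ _ _ _ _ _ _ hs' hs hρ hrr (hF z hz) e4

end Pool.Agent.DT
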