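import Pool.Agent.Lib.DT.B.Spec

/-!
# Theorem DT, Part B, module B7: the number `kpC`
-/

set_option autoImplicit false

open scoped Pointwise Topology
open Filter

noncomputable section

namespace Pool.Agent.DT

open Pool.Agent.MuZ Pool.Agent.FW NumberField IsDedekindDomain
open Pool.Agent.DI (io ofC io_inj exists_io io_ofC ofC_io VP MP UP TP ex)
open Pool.Agent.DKB (inL wp wd zt kz KK IsRp IsHf rr)

/-- Module B7. -/
theorem sB7 (h1 : K_Pts) (h2 : K_Dv3) (h3 : K_B7a) (h4 : S_B2) (h5 : S_B6) : S_B7 := by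
  intro k t _ b hb
  obtain ⟨_, _, _, _, _, _, _, _, _, _, _, hTS, hTS', _, _, _⟩ := h1 k t b hb
  obtain ⟨_, _, hwd⟩ := h2 k t b hb (ptT b) (ptT_mem hb) (three_ptT hb) hTS hTS'
  obtain ⟨ha, hc, hk0, hk3, hk4, hk5⟩ := h3 k t b hb
  obtain ⟨hW, _⟩ := h4 k t b hb (ptT b) (ptT_mem hb)
  obtain ⟨_, hr3, hAr, hXT, _⟩ := h5 k t b hb
  refine ⟨ha, hc, hk0, hk3, ?_, hk4, hk5⟩
  have hr2 : r2 b ≠ 0 := by
    intro h
    apply hk0
    unfold kpC
    rw [h, div_zero]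
  have hW2 : WC2 b (ptT b) = XC b (ptT b) ^ 3 - AC b * XC b (ptT b) - 2 := by
    have h := hW.symm.trans hwd
    exact mul_left_cancel₀ (pow_ne_zero 3 hr2) h
  rw [hk3, hW2, hXT]
  linear_combination (-1 : ℂ) * hr3 + 9 * hAr

end Pool.Agent.DT
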