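import Pool.Agent.Lib.DT.B.Spec

/-!
# Theorem DT, Part B, module B7a: homogeneity and complex conjugation
-/

set_option autoImplicit false

open scoped Pointwise Topology
open Filter

noncomputable section

namespace Pool.Agent.DT

open Pool.Agent.MuZ Pool.Agent.FW NumberField IsDedekindDomain
open Pool.Agent.DI (io ofC io_inj exists_io io_ofC ofC_io VP MP UP TP ex)
open Pool.Agent.DKB (inL wp wd zt kz KK IsRp IsHf rr)

private theorem B7a_tend {c : ℂ} (hc : c ≠ 0) :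
    Tendsto (fun t : ℝ => t / ‖c‖ ^ 2) (𝓝[>] 0) (𝓝[>] 0) := by
  have hn : (0 : ℝ) < ‖c‖ := norm_pos_iff.2 hc
  have hp : (0 : ℝ) < ‖c‖ ^ 2 := pow_pos hn 2
  refine tendsto_nhdsWithin_of_tendsto_nhds_of_eventually_within _ ?_ ?_
  · have h1 : Tendsto (fun t : ℝ => t / ‖c‖ ^ 2) (𝓝 0) (𝓝 (0 / ‖c‖ ^ 2)) :=
      (continuous_id.div_const (‖c‖ ^ 2)).tendsto 0
    rw [zero_div] at h1
    exact h1.mono_left nhdsWithin_le_nhds
  · filter_upwards [self_mem_nhdsWithin] with t ht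
    exact div_pos ht hp

/-- The number `rr` of a homothetic lattice. -/
private theorem B7a_rr {L M : PeriodPair} {c : ℂ} (hc : c ≠ 0)
    (hw : ∀ z, wp M z = c ^ 2 * wp L (c * z)) (t : ℂ) : rr M t = c ^ 2 * rr L (c * t) := by
  have e1 : c * (t + 3 * t) = c * t + 3 * (c * t) := by ring
  have e2 : c * (t - 3 * t) = c * t - 3 * (c * t) := by ring
  have e3 : c * (3 * t) = 3 * (c * t) := by ring
  unfold rr
  rw [hw, hw, hw, hw, e1, e2, e3, ← mul_sub, ← mul_sub, ← mul_sub]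
  have hc2 : c ^ 2 ≠ 0 := pow_ne_zero 2 hc
  rw [show ∀ x y z : ℂ, c ^ 2 * x * (c ^ 2 * y) / (c ^ 2 * z) = c ^ 2 * (c ^ 2 * (x * y)) / (c ^ 2 * z)
    from fun x y z => by ring, mul_div_mul_left _ _ hc2, mul_div_assoc]

section

variable {k t : ℕ} [SqT k t]

/-- The functions `℘`, `℘'`, `X`, the numbers `r²`, `Al`. -/
private theorem B7a_scl (h2 : K_Pts) (h5 : DKB.G_Nin) {b : Ideal (OO k t)} (hb : b ≠ ⊥)
    {α : OO k t} (hα : α ≠ 0) :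
    (∀ z : ℂ, XC (sp α * b) z = XC b (toC α * z) ∧ wdC (sp α * b) z = toC α ^ 3 * wdC b (toC α * z)) ∧
      AC (sp α * b) = AC b ∧ r2 (sp α * b) = toC α ^ 2 * r2 b ∧
      XC (sp α * b) (ptT (sp α * b)) = XC b (ptT b) := by
  have hc : toC α ≠ 0 := toC_ne hα
  have hab : sp α * b ≠ ⊥ := mul_ne_zero (a := sp α) (b := b) (sp_ne hα) hb
  obtain ⟨hw, hd, -, hg, -⟩ := DKB.gScl.1 (LP b) (LP (sp α * b)) (toC α) hc (fun z => by
    rw [inL_LP hab, inL_LP hb]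
    exact lam_sp)
  obtain ⟨hT, hS, j, hj, ht⟩ := (h2 k t b hb).2.2.2.2.2.2.2.2.2.2.2.2.2.2.2 α hα
  have hwC : ∀ z, wpC (sp α * b) z = toC α ^ 2 * wpC b (toC α * z) := hw
  have hdC : ∀ z, wdC (sp α * b) z = toC α ^ 3 * wdC b (toC α * z) := hd
  have hr : r2 (sp α * b) = toC α ^ 2 * r2 b := by
    rw [r2_eq, r2_eq, B7a_rr hc hw]
    have e1 : ¬ inL (LP b) (3 * ptt b) := by
      rw [inL_LP hb]
      exact ptS_mem hb
    have e2 : inL (LP b) (9 * ptt b) := (inL_LP hb).2 (nine_ptt hb)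
    rw [((h5 (LP b) (ptt b) e1 e2).2.2.2.2 (toC α * ptt (sp α * b)) j hj ((inL_LP hb).2 ht)).1]
  have hX : ∀ z, XC (sp α * b) z = XC b (toC α * z) := by
    intro z
    unfold XC
    rw [hr, hwC, hwC, wpC_congr' hb hS, ← mul_sub]
    exact mul_div_mul_left _ _ (pow_ne_zero 2 hc)
  refine ⟨fun z => ⟨hX z, hdC z⟩, ?_, hr, ?_⟩
  · unfold AC w2C
    rw [hr, hwC, hdC, wpC_congr' hb hS, mul_pow (toC α ^ 3), wdC_congr' hb hS, hg]
    have hc6 : toC α ^ 6 ≠ 0 := pow_ne_zero 6 hc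
    rw [show (6 * (toC α ^ 2 * wpC b (ptS b)) ^ 2 - toC α ^ 4 * (LP b).g₂ / 2) * (toC α ^ 2 * r2 b) =
      toC α ^ 6 * ((6 * wpC b (ptS b) ^ 2 - (LP b).g₂ / 2) * r2 b) by ring,
      show (toC α ^ 3) ^ 2 * wdC b (ptS b) ^ 2 = toC α ^ 6 * wdC b (ptS b) ^ 2 by ring]
    exact mul_div_mul_left _ _ hc6
  · rw [hX]
    exact XC_congr' hb hT

private theorem B7a_KC (h3 : K_Kz) {b : Ideal (OO k t)} (hb : b ≠ ⊥) {α : OO k t} (hα : α ≠ 0) (z : ℂ) :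
    KC (sp α * b) z = toC α * KC b (toC α * z) := by
  have hc : toC α ≠ 0 := toC_ne hα
  have hab : sp α * b ≠ ⊥ := mul_ne_zero (a := sp α) (b := b) (sp_ne hα) hb
  obtain ⟨-, -, hK, -, -⟩ := DKB.gScl.1 (LP b) (LP (sp α * b)) (toC α) hc (fun z => by
    rw [inL_LP hab, inL_LP hb]
    exact lam_sp)
  have hKC : ∀ (s : ℝ) (z : ℂ),
      KtC (sp α * b) s z = toC α * KtC b (s / ‖toC α‖ ^ 2) (toC α * z) := hK
  have e1 := (h3 k t (sp α * b) hab).1 z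
  have e2 : Tendsto (fun s : ℝ => toC α * KtC b (s / ‖toC α‖ ^ 2) (toC α * z)) (𝓝[>] 0)
      (𝓝 (toC α * KC b (toC α * z))) :=
    (((h3 k t b hb).1 (toC α * z)).comp (B7a_tend hc)).const_mul (toC α)
  have e3 : (fun s : ℝ => KtC (sp α * b) s z) =
      fun s : ℝ => toC α * KtC b (s / ‖toC α‖ ^ 2) (toC α * z) := funext fun s => hKC s z
  rw [e3] at e1
  exact tendsto_nhds_unique e1 e2

private theorem B7a_kp (h2 : K_Pts) (h5 : DKB.G_Nin) {b : Ideal (OO k t)} (hb : b ≠ ⊥)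
    {α : OO k t} (hα : α ≠ 0) : kpC (sp α * b) = kpC b := by
  have hc : toC α ≠ 0 := toC_ne hα
  have hJ : cjI b ≠ ⊥ := (aO3 k t).2.2.2.2.2.2.1 b hb
  have hα' : cjO α ≠ 0 := by
    intro h
    apply hα
    rw [← cjO_cjO α, h, cjO_zero]
  have e1 : cjI (sp α * b) = sp (cjO α) * cjI b := by
    rw [(aO3 k t).2.1, (aO3 k t).2.2.2.1]
  unfold kpC
  rw [e1, (B7a_scl h2 h5 hb hα).2.2.1, (B7a_scl h2 h5 hJ hα').2.2.1, ← conj_toC, map_mul, map_pow,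
    Complex.conj_conj]
  exact mul_div_mul_left _ _ (pow_ne_zero 2 hc)

/-- Complex conjugation. -/
private theorem B7a_cj (h1 : K_Cst) (h3 : K_Kz) {b : Ideal (OO k t)} (hb : b ≠ ⊥) :
    (∀ z : ℂ, (starRingEnd ℂ) (wpC b z) = wpC (cjI b) ((starRingEnd ℂ) z) ∧
      (starRingEnd ℂ) (wdC b z) = wdC (cjI b) ((starRingEnd ℂ) z) ∧
      (starRingEnd ℂ) (KC b z) = KC (cjI b) ((starRingEnd ℂ) z) ∧
      (starRingEnd ℂ) (XC b z) * kpC (cjI b) =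
        XC (cjI b) ((starRingEnd ℂ) z) - XC (cjI b) (ptT (cjI b))) ∧
    (starRingEnd ℂ) (LP b).g₂ = (LP (cjI b)).g₂ ∧ (starRingEnd ℂ) (LP b).g₃ = (LP (cjI b)).g₃ := by
  have hcb : cjI b ≠ ⊥ := (aO3 k t).2.2.2.2.2.2.1 b hb
  have hcc : cjI (cjI b) = b := ((aO3 k t).2.2.1 b).1
  obtain ⟨hw, hd, hK, hg2, hg3⟩ := DKB.gScl.2.1 (LP b) (LP (cjI b)) (fun z => by
    rw [inL_LP hcb, inL_LP hb]
    exact (aL2 k t).2.2.2.2.2.2.2.1 b z)
  have hwC : ∀ z, (starRingEnd ℂ) (wpC b z) = wpC (cjI b) ((starRingEnd ℂ) z) := by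
    intro z
    have e := hw ((starRingEnd ℂ) z)
    rw [Complex.conj_conj] at e
    exact e.symm
  have hdC : ∀ z, (starRingEnd ℂ) (wdC b z) = wdC (cjI b) ((starRingEnd ℂ) z) := by
    intro z
    have e := hd ((starRingEnd ℂ) z)
    rw [Complex.conj_conj] at e
    exact e.symm
  have hKC : ∀ (s : ℝ) (z : ℂ),
      (starRingEnd ℂ) (KtC b s z) = KtC (cjI b) s ((starRingEnd ℂ) z) := by
    intro s z
    have e := hK s ((starRingEnd ℂ) z)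
    rw [Complex.conj_conj] at e
    exact e.symm
  have hS := (aL6 k t b hb).2.2.2.2.2.1
  have hr0 : r2 b ≠ 0 := (h1 k t b hb).1
  have hr1 : r2 (cjI b) ≠ 0 := (h1 k t (cjI b) hcb).1
  have hr2 : (starRingEnd ℂ) (r2 b) ≠ 0 := by
    rw [ne_eq, map_eq_zero]
    exact hr0
  refine ⟨fun z => ⟨hwC z, hdC z, ?_, ?_⟩, hg2.symm, hg3.symm⟩
  · have e1 := (h3 k t (cjI b) hcb).1 ((starRingEnd ℂ) z)
    have e2 : Tendsto (fun s : ℝ => (starRingEnd ℂ) (KtC b s z)) (𝓝[>] 0)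
        (𝓝 ((starRingEnd ℂ) (KC b z))) :=
      (Complex.continuous_conj.tendsto (KC b z)).comp ((h3 k t b hb).1 z)
    have e3 : (fun s : ℝ => (starRingEnd ℂ) (KtC b s z)) =
        fun s : ℝ => KtC (cjI b) s ((starRingEnd ℂ) z) := funext fun s => hKC s z
    rw [e3] at e2
    exact tendsto_nhds_unique e2 e1
  · unfold XC kpC
    rw [hcc, map_div₀, map_sub, hwC, hwC, wpC_congr' hcb hS, div_mul_div_comm,
      mul_comm (wpC (cjI b) ((starRingEnd ℂ) z) - wpC (cjI b) (ptT (cjI b))) ((starRingEnd ℂ) (r2 b)),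
      mul_div_mul_left _ _ hr2, ← sub_div]
    congr 1
    ring

private theorem B7a_disc {s A g2 g3 : ℂ} (h2 : g2 = s ^ 2 * (A ^ 4 - 24 * A) / 12)
    (h3 : g3 = s ^ 3 * (-A ^ 6 + 36 * A ^ 3 - 216) / 216) :
    g2 ^ 3 - 27 * g3 ^ 2 = s ^ 6 * (A ^ 3 - 27) := by
  rw [h2, h3]
  ring

end

theorem sB7a (h1 : K_Cst) (h2 : K_Pts) (h3 : K_Kz) (h4 : S_B2) (h5 : DKB.G_Nin) : K_B7a := by
  intro k t _ b hb
  have hcb : cjI b ≠ ⊥ := (aO3 k t).2.2.2.2.2.2.1 b hb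
  have hcc : cjI (cjI b) = b := ((aO3 k t).2.2.1 b).1
  have hr0 : r2 b ≠ 0 := (h1 k t b hb).1
  have hr1 : r2 (cjI b) ≠ 0 := (h1 k t (cjI b) hcb).1
  have hr2 : (starRingEnd ℂ) (r2 b) ≠ 0 := by
    rw [ne_eq, map_eq_zero]
    exact hr0
  have hr3 : (starRingEnd ℂ) (r2 (cjI b)) ≠ 0 := by
    rw [ne_eq, map_eq_zero]
    exact hr1
  obtain ⟨hcj, hg2, hg3⟩ := B7a_cj h1 h3 hb
  refine ⟨?_, hcj, ?_, ?_, ?_, ?_⟩
  · intro α hα
    obtain ⟨e1, e2, e3, e4⟩ := B7a_scl h2 h5 hb hα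
    refine ⟨fun z => ⟨(e1 z).1, (e1 z).2, B7a_KC h3 hb hα z⟩, e2, ?_, ?_, B7a_kp h2 h5 hb hα, e3⟩
    · have hpb : ppb k t * b ≠ ⊥ := mul_ne_zero ppb_ne hb
      unfold rhC
      rw [mul_left_comm (ppb k t) (sp α) b, (B7a_scl h2 h5 hpb hα).2.2.2]
    · unfold dlC
      rw [e2, e4]
  · exact div_ne_zero hr3 hr0
  · have hJ := (B7a_cj h1 h3 hcb).1 (ptS (cjI b))
    rw [hcc] at hJ
    have hS := (aL6 k t (cjI b) hcb).2.2.2.2.2.1
    rw [hcc] at hS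
    have e1 : r2 (cjI b) ^ 3 = wdC (cjI b) (ptS (cjI b)) ^ 2 := (h1 k t (cjI b) hcb).2.2.2.1
    have e2 : (starRingEnd ℂ) (r2 (cjI b)) ^ 3 = wdC b (ptT b) ^ 2 := by
      rw [← map_pow, e1, map_pow, hJ.2.1]
      exact wdC_congr' hb hS
    have e3 := (h4 k t b hb (ptT b) (ptT_mem hb)).1
    unfold kpC
    rw [div_pow, e2, e3, mul_div_cancel_left₀ _ (pow_ne_zero 3 hr0)]
  · unfold kpC
    rw [hcc, map_div₀, Complex.conj_conj]
    field_simp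
  · have hA := h1 k t b hb
    have hB := h1 k t (cjI b) hcb
    have e1 := B7a_disc hA.2.2.2.2.2.2.1 hA.2.2.2.2.2.2.2
    have e2 := B7a_disc hB.2.2.2.2.2.2.1 hB.2.2.2.2.2.2.2
    have e3 : (starRingEnd ℂ) (r2 b) ^ 6 * (starRingEnd ℂ) (AC b ^ 3 - 27) =
        r2 (cjI b) ^ 6 * (AC (cjI b) ^ 3 - 27) := by
      rw [← e2, ← hg2, ← hg3, ← map_pow, ← map_mul, ← e1]
      simp only [map_sub, map_mul, map_pow, map_ofNat]
    unfold kpC
    rw [hcc, div_pow, mul_div_assoc', mul_comm ((starRingEnd ℂ) (AC b ^ 3 - 27)), e3,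
      mul_div_cancel_left₀ _ (pow_ne_zero 6 hr1)]

end Pool.Agent.DT
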