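import Pool.Agent.Lib.DT.B.Spec

/-!
# Theorem DT, Part B, module B7k (helper41): `kpC` and the points of order `𝔭²`
-/

set_option autoImplicit false

open scoped Pointwise Topology
open Filter

noncomputable section

namespace Pool.Agent.DT

open Pool.Agent.MuZ Pool.Agent.FW NumberField IsDedekindDomain
open Pool.Agent.DI (io ofC io_inj exists_io io_ofC ofC_io VP MP UP TP ex)
open Pool.Agent.DKB (inL wp wd zt kz KK IsRp IsHf rr)

/-- `z'` of order `𝔭̄²` is congruent to `j t`, `3 ∤ j`. -/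
private theorem B7k_j {k t : ℕ} [SqT k t] {J : Ideal (OO k t)} (hJ : J ≠ ⊥) {z : ℂ}
    (h1 : z ∈ Lam (ppb k t ^ 2 * J)) (h2 : z ∉ Lam (ppb k t * J)) :
    ∃ j : ℤ, ¬ (3 : ℤ) ∣ j ∧ z - j * ptt J ∈ Lam J := by
  have h := (aL6a k t J hJ).2.2.2.2.2.2.2.2.2 z h1 h2
  rw [ptS_eq] at h
  rcases h with (h | h | h) | (h | h | h)
  · exact ⟨1, by decide, by rw [Int.cast_one, one_mul]; exact h⟩
  · refine ⟨4, by decide, ?_⟩
    have e : z - ((4 : ℤ) : ℂ) * ptt J = z - (ptt J + 3 * ptt J) := by push_cast; ring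
    rw [e]
    exact h
  · refine ⟨-2, by decide, ?_⟩
    have e : z - ((-2 : ℤ) : ℂ) * ptt J = z - (ptt J - 3 * ptt J) := by push_cast; ring
    rw [e]
    exact h
  · refine ⟨-1, by decide, ?_⟩
    have e : z - ((-1 : ℤ) : ℂ) * ptt J = z + ptt J := by push_cast; ring
    rw [e]
    exact h
  · refine ⟨-4, by decide, ?_⟩
    have e : z - ((-4 : ℤ) : ℂ) * ptt J = z + (ptt J + 3 * ptt J) := by push_cast; ring
    rw [e]
    exact h
  · refine ⟨2, by decide, ?_⟩
    have e : z - ((2 : ℤ) : ℂ) * ptt J = z + (ptt J - 3 * ptt J) := by push_cast; ring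
    rw [e]
    exact h

theorem sB7k (h1 : K_Cst) (h2 : K_B7a) (h3 : DKB.G_Nin) : S_B7k := by
  intro k t _ b hb z hz hz'
  obtain ⟨c1, c2, -, -, c5, c6, c7, c8⟩ := aO3 k t
  obtain ⟨-, d2, -, -, -, -, -, -, -, -, d11, -⟩ := aO4 k t
  have hJ : cjI b ≠ ⊥ := c7 b hb
  have hconj := (aL2 k t).2.2.2.2.2.2.2.1
  -- the point z' = conj z
  have e1 : cjI (pp k t ^ 2 * b) = ppb k t ^ 2 * cjI b := by
    rw [c2, pow_two, c2, d2, pow_two]
  have e2 : cjI (pp k t * b) = ppb k t * cjI b := by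
    rw [c2, d2]
  have hz1 : (starRingEnd ℂ) z ∈ Lam (ppb k t ^ 2 * cjI b) := by
    rw [← e1, hconj, Complex.conj_conj]
    exact hz
  have hz2 : (starRingEnd ℂ) z ∉ Lam (ppb k t * cjI b) := by
    rw [← e2, hconj, Complex.conj_conj]
    exact hz'
  obtain ⟨j, hj, hjz⟩ := B7k_j hJ hz1 hz2
  have hS : ¬ inL (LP (cjI b)) (3 * ptt (cjI b)) := (notL_LP hJ).2 (ptS_mem hJ)
  have hN : inL (LP (cjI b)) (9 * ptt (cjI b)) := (inL_LP hJ).2 (nine_ptt hJ)
  obtain ⟨-, -, -, -, g5⟩ := h3 (LP (cjI b)) (ptt (cjI b)) hS hN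
  obtain ⟨r1, -, -, r4, -⟩ := g5 ((starRingEnd ℂ) z) j hj ((inL_LP hJ).2 hjz)
  have hr : r2 (cjI b) = rr (LP (cjI b)) ((starRingEnd ℂ) z) := by rw [r1]; rfl
  have hr0 : r2 (cjI b) ≠ 0 := (h1 k t (cjI b) hJ).1
  have hs0 : r2 b ≠ 0 := (h1 k t b hb).1
  have hcw : ∀ x : ℂ, wp (LP (cjI b)) ((starRingEnd ℂ) x) = (starRingEnd ℂ) (wpC b x) :=
    fun x => ((h2 k t b hb).2.1 x).1.symm
  have w4 : wp (LP (cjI b)) ((starRingEnd ℂ) z + 3 * (starRingEnd ℂ) z) =
      (starRingEnd ℂ) (wpC b (4 * z)) := by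
    rw [← hcw]
    congr 1
    rw [map_mul]
    have : (starRingEnd ℂ) (4 : ℂ) = 4 := Complex.conj_ofNat 4
    rw [this]
    ring
  have w3 : wp (LP (cjI b)) (3 * (starRingEnd ℂ) z) = (starRingEnd ℂ) (wpC b (3 * z)) := by
    rw [← hcw]
    congr 1
    rw [map_mul]
    have : (starRingEnd ℂ) (3 : ℂ) = 3 := Complex.conj_ofNat 3
    rw [this]
  have w2 : wp (LP (cjI b)) ((starRingEnd ℂ) z - 3 * (starRingEnd ℂ) z) =
      (starRingEnd ℂ) (wpC b (2 * z)) := by
    rw [← hcw, ← DKB.wp_neg]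
    congr 1
    rw [map_mul]
    have : (starRingEnd ℂ) (2 : ℂ) = 2 := Complex.conj_ofNat 2
    rw [this]
    ring
  unfold rr at hr
  rw [w4, w3, w2, hcw z, ← map_sub, ← map_sub, ← map_sub, ← map_mul, ← map_div₀] at hr
  have hr' : (starRingEnd ℂ) (r2 (cjI b)) =
      (wpC b (4 * z) - wpC b (3 * z)) * (wpC b (2 * z) - wpC b z) /
        (wpC b (2 * z) - wpC b (4 * z)) := by
    rw [hr, Complex.conj_conj]
  have hden : wpC b (2 * z) - wpC b (4 * z) ≠ 0 := by
    intro h0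
    rw [h0, div_zero, map_zero] at hr
    exact hr0 hr
  -- the point 3 z
  have h3a : 3 * z ∈ Lam (pp k t * b) := by
    rw [lam_prod]
    intro v hv
    have h3v : v * 3 ∈ pp k t ^ 2 := by
      rw [pow_two]
      refine Ideal.mul_mem_mul hv ?_
      rw [d11]
      have : ((3 : OO k t)).re = 3 := by
        have := re_nat (k := k) (t := t) 3
        exact_mod_cast this
      rw [this]
    have h4 := lam_prod.1 hz _ h3v
    rw [toC_mul, toC_three] at h4
    have e : toC v * (3 * z) = toC v * 3 * z := by ring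
    rw [e]
    exact h4
  have h3b : 3 * z ∉ Lam b := by
    intro h
    apply r4
    rw [inL_LP hJ, hconj]
    have e : (starRingEnd ℂ) (3 * (starRingEnd ℂ) z) = 3 * z := by
      rw [map_mul, Complex.conj_conj]
      have : (starRingEnd ℂ) (3 : ℂ) = 3 := Complex.conj_ofNat 3
      rw [this]
    rw [e]
    exact h
  have hT : wpC b (3 * z) = wpC b (ptT b) := by
    refine wpC_congr' hb ?_
    rcases (aL6a k t b hb).1.2.2.2.2 (3 * z) h3a with h | h | h
    · exact absurd h h3b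
    · exact Or.inl h
    · exact Or.inr h
  have hX : ∀ x y : ℂ, XC b x - XC b y = (wpC b x - wpC b y) / r2 b := by
    intro x y
    unfold XC
    rw [← sub_div]
    congr 1
    ring
  constructor
  · intro h
    apply hden
    have h5 := hX (2 * z) (4 * z)
    rw [h, sub_self] at h5
    rcases div_eq_zero_iff.1 h5.symm with h6 | h6
    · exact h6
    · exact absurd h6 hs0
  · rw [hX, hX, hX]
    unfold kpC
    rw [hr', hT]
    generalize wpC b (2 * z) = x2 at hden ⊢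
    generalize wpC b (4 * z) = x4 at hden ⊢
    field_simp

end Pool.Agent.DT
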