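import Pool.Agent.Lib.DT.B.Spec

/-!
# Theorem DT, Part B, module B8: the product formula
-/

set_option autoImplicit false

open scoped Pointwise Topology
open Filter

noncomputable section

namespace Pool.Agent.DT

open Pool.Agent.MuZ Pool.Agent.FW NumberField IsDedekindDomain
open Pool.Agent.DI (io ofC io_inj exists_io io_ofC ofC_io VP MP UP TP ex)
open Pool.Agent.DKB (inL wp wd zt kz KK IsRp IsHf rr)

/-- Differences of `℘` and of `X`. -/
private theorem B8_sub (h1 : K_Cst) {k t : ℕ} [SqT k t] {b : Ideal (OO k t)} (hb : b ≠ ⊥) (x y : ℂ) :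
    wp (LP b) x - wp (LP b) y = r2 b * (XC b x - XC b y) := by
  have hs : r2 b ≠ 0 := (h1 k t b hb).1
  unfold XC
  rw [wpC_eq, ← sub_div, sub_sub_sub_cancel_right, mul_div_cancel₀ _ hs]

theorem sB8 (h1 : K_Cst) : S_B8 := by
  classical
  intro k t _ a b ha hb R hR v hv
  have hab : a * b ≠ ⊥ := mul_ne_zero ha hb
  have hs : r2 b ≠ 0 := (h1 k t b hb).1
  have hvb : v ∉ Lam b := fun h => hv (lam_mono h)
  have hrp := hR.rp ha hb
  obtain ⟨c, hc0, hc⟩ := DKB.gPrA (LP b) (LP (a * b)) R hrp v ((notL_LP hab).2 hv)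
  have hcc := DKB.gPrB (LP b) (LP (a * b)) R hrp v c ((notL_LP hab).2 hv) hc
  refine ⟨fun z hz => ?_, fun u hu hub hX => ?_⟩
  · have e := hc z ((notL_LP hab).2 hz)
    rw [hcc] at e
    have e1 : ∏ u ∈ R, (wp (LP b) (z + u) - wp (LP b) v) =
        r2 b ^ R.card * ∏ u ∈ R, (XC b (z + u) - XC b v) := by
      rw [← Finset.prod_const, ← Finset.prod_mul_distrib]
      exact Finset.prod_congr rfl fun u _ => B8_sub h1 hb _ _
    obtain ⟨u₀, hu₀, hu₀'⟩ := hR.ex 0 (lam_zero _)
    have hu₀L : u₀ ∈ Lam b := by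
      rw [zero_sub] at hu₀'
      exact lam_neg_iff.1 hu₀'
    have e2 : r2 b * ∏ u ∈ R, (if inL (LP b) u then (1 : ℂ) else wp (LP b) u - wp (LP b) v) =
        r2 b ^ R.card * ∏ u ∈ R, (if u ∈ Lam b then (1 : ℂ) else XC b u - XC b v) := by
      have e3 : r2 b * ∏ u ∈ R, (if inL (LP b) u then (1 : ℂ) else wp (LP b) u - wp (LP b) v) =
          ∏ u ∈ R, (r2 b * (if u ∈ Lam b then (1 : ℂ) else XC b u - XC b v)) := by
        rw [← Finset.mul_prod_erase R _ hu₀, ← Finset.mul_prod_erase R _ hu₀,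
          if_pos ((inL_LP hb).2 hu₀L), if_pos hu₀L, one_mul, mul_one]
        congr 1
        refine Finset.prod_congr rfl fun u hu => ?_
        have hu' : u ∉ Lam b := fun hL =>
          Finset.ne_of_mem_erase hu
            (hR.uni u (Finset.mem_of_mem_erase hu) u₀ hu₀ (lam_sub hL hu₀L))
        rw [if_neg ((notL_LP hb).2 hu'), if_neg hu', B8_sub h1 hb]
      rw [e3, Finset.prod_mul_distrib, Finset.prod_const]
    rw [e1, B8_sub h1 hab] at e
    have hsn : r2 b ^ R.card ≠ 0 := pow_ne_zero _ hs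
    apply mul_left_cancel₀ hsn
    apply mul_left_cancel₀ hs
    rw [e]
    have e4 : r2 b * (r2 b ^ R.card * (r2 (a * b) / r2 b *
        (∏ u ∈ R, (if u ∈ Lam b then (1 : ℂ) else XC b u - XC b v)) *
          (XC (a * b) z - XC (a * b) v))) =
        (r2 b ^ R.card * ∏ u ∈ R, (if u ∈ Lam b then (1 : ℂ) else XC b u - XC b v)) *
          (r2 (a * b) * (XC (a * b) z - XC (a * b) v)) := by
      field_simp
    rw [e4, ← e2]
    ring
  · have hw : wp (LP b) u = wp (LP b) v := by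
      have := B8_sub h1 hb u v
      rw [hX, sub_self, mul_zero] at this
      exact sub_eq_zero.1 this
    have hu' : u ∈ Lam (a * b) := hR.mem u hu
    rcases ((DKB.gInj (LP b)).1 u v ((notL_LP hb).2 hub) ((notL_LP hb).2 hvb)).1 hw with h | h
    · have h5 : u - v ∈ Lam (a * b) := lam_mono ((inL_LP hb).1 h)
      exact hv ((lam_sub_iff h5).1 hu')
    · have h5 : u + v ∈ Lam (a * b) := lam_mono ((inL_LP hb).1 h)
      exact hv ((lam_add_left_iff hu').1 h5)

end Pool.Agent.DT
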