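import Pool.Agent.Lib.DT.B.Spec

/-!
# Theorem DT, Part B, module B9: the sum formulas
-/

set_option autoImplicit false

open scoped Pointwise Topology
open Filter

noncomputable section

namespace Pool.Agent.DT

open Pool.Agent.MuZ Pool.Agent.FW NumberField IsDedekindDomain
open Pool.Agent.DI (io ofC io_inj exists_io io_ofC ofC_io VP MP UP TP ex)
open Pool.Agent.DKB (inL wp wd zt kz KK IsRp IsHf rr)

private theorem B9_s {k t : ℕ} {b : Ideal (OO k t)} (h : r2 b ≠ 0) (z z' : ℂ) :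
    r2 b * (XC b z - XC b z') = wpC b z - wpC b z' := by
  unfold XC
  field_simp
  ring

theorem sB9 (h1 : K_Cst) (h2 : K_Kz) : S_B9 := by
  intro k t _ a b ha hb R hR
  have hab : a * b ≠ ⊥ := mul_ne_zero ha hb
  have rp := hR.rp ha hb
  have sa : r2 (a * b) ≠ 0 := (h1 k t _ hab).1
  have sb : r2 b ≠ 0 := (h1 k t b hb).1
  have hs : ∀ z, z ∉ Lam (a * b) → wpC (a * b) z = ∑ u ∈ R, (wpC b (z + u) - wpC b u) :=
    fun z hz => (DKB.gSum _ _ R rp z ((notL_LP hab).2 hz)).1
  refine ⟨fun z z' hz hz' => ?_, fun z hz => (DKB.gSum _ _ R rp z ((notL_LP hab).2 hz)).2,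
    fun z hz => ?_⟩
  · rw [B9_s sa, hs z hz, hs z' hz', ← Finset.sum_sub_distrib, Finset.mul_sum]
    refine Finset.sum_congr rfl fun u _ => ?_
    rw [B9_s sb]
    ring
  · rw [(h2 k t _ hab).2.1 z hz, (DKB.gKB (LP b)).2.2.2 (LP (a * b)) R rp z ((notL_LP hab).2 hz)]
    refine Finset.sum_congr rfl fun u hu => ?_
    rw [(h2 k t b hb).2.1 (z + u)]
    intro h
    apply hz
    have h5 := lam_sub (lam_mono (a := a) h) (hR.mem u hu)
    rwa [add_sub_cancel_right] at h5

end Pool.Agent.DT
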