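import Pool.Agent.Lib.DT.B.Spec

/-!
# Module DT/B/Cst: the constants
-/

set_option autoImplicit false

open scoped Pointwise Topology
open Filter

noncomputable section

namespace Pool.Agent.DT

open Pool.Agent.MuZ Pool.Agent.FW NumberField IsDedekindDomain
open Pool.Agent.DI (io ofC io_inj exists_io io_ofC ofC_io VP MP UP TP ex)
open Pool.Agent.DKB (inL wp wd zt kz KK IsRp IsHf rr)

private theorem Cst_alg {e d c s A g2 g3 : ℂ} (hs : s ≠ 0) (hsd : s ^ 3 = d ^ 2) (hA : A = c * s / d ^ 2)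
    (hc : c = 6 * e ^ 2 - g2 / 2) (h12 : 12 * e * d ^ 2 = c ^ 2) (hd : d ^ 2 = 4 * e ^ 3 - g2 * e - g3)
    (hD : ∀ x : ℂ, 4 * x ^ 3 - g2 * x - g3 = 0 → 12 * x ^ 2 - g2 ≠ 0) :
    A ^ 3 - 27 ≠ 0 ∧ c = s ^ 2 * A ∧ e = s * A ^ 2 / 12 ∧
      g2 = s ^ 2 * (A ^ 4 - 24 * A) / 12 ∧ g3 = s ^ 3 * (-A ^ 6 + 36 * A ^ 3 - 216) / 216 := by
  have h1 : c = s ^ 2 * A := by
    rw [hA, ← hsd]
    field_simp
  have h2 : e = s * A ^ 2 / 12 := by
    apply mul_left_cancel₀ (pow_ne_zero 3 hs)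
    rw [h1, ← hsd] at h12
    linear_combination h12 / 12
  have h3 : g2 = s ^ 2 * (A ^ 4 - 24 * A) / 12 := by
    have e1 : g2 = 12 * e ^ 2 - 2 * c := by
      rw [hc]
      ring
    rw [e1, h1, h2]
    ring
  have h4 : g3 = s ^ 3 * (-A ^ 6 + 36 * A ^ 3 - 216) / 216 := by
    have e1 : g3 = 4 * e ^ 3 - g2 * e - s ^ 3 := by
      rw [hsd, hd]
      ring
    rw [e1, h3, h2]
    ring
  refine ⟨?_, h1, h2, h3, h4⟩
  intro h0
  have hA0 : A ≠ 0 := by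
    rintro rfl
    norm_num at h0
  have h5 := hD (s * (-3 / A + A ^ 2 / 12))
  have h6 : A ^ 3 = 27 := by linear_combination h0
  apply h5
  · rw [h3, h4]
    apply mul_left_cancel₀ (pow_ne_zero 3 hA0)
    have e1 : A * (-3 / A + A ^ 2 / 12) = -3 + A ^ 3 / 12 := by
      field_simp
    generalize (-3 / A + A ^ 2 / 12) = x at e1 ⊢
    have e2 : A * x = -3 + 27 / 12 := by rw [e1, h6]
    have e3 : A ^ 3 * x ^ 3 = (-3 + 27 / 12) ^ 3 := by rw [← e2]; ring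
    have e4 : A ^ 6 = 27 ^ 2 := by
      rw [← h6]
      ring
    rw [mul_zero]
    have e5 : A ^ 3 * (4 * (s * x) ^ 3 - s ^ 2 * (A ^ 4 - 24 * A) / 12 * (s * x) -
        s ^ 3 * (-A ^ 6 + 36 * A ^ 3 - 216) / 216) =
        s ^ 3 * (4 * (A ^ 3 * x ^ 3) - A ^ 3 * (A ^ 3 - 24) / 12 * (A * x) -
          A ^ 3 * (-A ^ 6 + 36 * A ^ 3 - 216) / 216) := by ring
    rw [e5, e3, e2, e4, h6]
    norm_num
  · rw [h3]
    apply mul_left_cancel₀ (pow_ne_zero 2 hA0)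
    have e1 : A * (-3 / A + A ^ 2 / 12) = -3 + A ^ 3 / 12 := by
      field_simp
    generalize (-3 / A + A ^ 2 / 12) = x at e1 ⊢
    have e2 : A * x = -3 + 27 / 12 := by rw [e1, h6]
    rw [mul_zero]
    have e5 : A ^ 2 * (12 * (s * x) ^ 2 - s ^ 2 * (A ^ 4 - 24 * A) / 12) =
        s ^ 2 * (12 * (A * x) ^ 2 - A ^ 3 * (A ^ 3 - 24) / 12) := by ring
    rw [e5, e2, h6]
    norm_num

theorem sCst (h1 : DKB.G_Dsc) (h2 : DKB.G_Flx) (h3 : DKB.G_Nin) : K_Cst := by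
  intro k t _ b hb
  have hS : ¬ inL (LP b) (ptS b) := (notL_LP hb).2 (ptS_mem hb)
  have hS3 : inL (LP b) (3 * ptS b) := (inL_LP hb).2 (three_ptS hb)
  have h9 : inL (LP b) (9 * ptt b) := (inL_LP hb).2 (nine_ptt hb)
  obtain ⟨f1, f2, -⟩ := h2 (LP b) (ptS b) hS hS3
  obtain ⟨n1, n2, -⟩ := h3 (LP b) (ptt b) (by rw [← ptS_eq]; exact hS) h9
  rw [← r2_eq] at n1 n2
  rw [← ptS_eq] at n2
  have hd : wdC b (ptS b) ≠ 0 := f1
  obtain ⟨c1, c2, c3, c4, c5⟩ := Cst_alg (e := wpC b (ptS b)) (d := wdC b (ptS b)) (c := w2C b (ptS b))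
    (s := r2 b) (A := AC b) (g2 := (LP b).g₂) (g3 := (LP b).g₃) n1 n2 rfl rfl f2
    (DKB.wd_sq hS) (h1 (LP b))
  exact ⟨n1, hd, c1, n2, c2, c3, c4, c5⟩

end Pool.Agent.DT
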