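import Pool.Agent.Lib.DT.B.Spec

/-!
# Theorem DT, Part B: the three division equation
-/

set_option autoImplicit false

open scoped Pointwise Topology
open Filter

noncomputable section

namespace Pool.Agent.DT

open Pool.Agent.MuZ Pool.Agent.FW NumberField IsDedekindDomain
open Pool.Agent.DI (io ofC io_inj exists_io io_ofC ofC_io VP MP UP TP ex)
open Pool.Agent.DKB (inL wp wd zt kz KK IsRp IsHf rr)

theorem sDv3 (h1 : K_Cst) (h2 : DKB.G_Flx) : K_Dv3 := by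
  intro k t _ b hb z hz h3z hzp hzm
  obtain ⟨hs, hd0, -, hd, hw2, he, -, -⟩ := h1 k t b hb
  have hc : 6 * wpC b (ptS b) ^ 2 - (LP b).g₂ / 2 = r2 b ^ 2 * AC b := hw2
  have hL : ∀ x : ℂ, x ∉ Lam b → ¬ inL (LP b) x := fun x hx => (notL_LP hb).2 hx
  have hp : wpC b z - wpC b (ptS b) = r2 b * XC b z := by
    unfold XC
    field_simp
  obtain ⟨-, -, f3, f4, f5⟩ := h2 (LP b) (ptS b) (hL _ (ptS_mem hb)) ((inL_LP hb).2 (three_ptS hb))
  have g1 : wpC b z - wpC b (ptS b) ≠ 0 := (f3 z (hL _ hz) (hL _ hzp) (hL _ hzm)).1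
  have g2 : (wpC b z - wpC b (ptS b)) ^ 3 + 4 * wpC b (ptS b) * (wpC b z - wpC b (ptS b)) ^ 2 +
      (6 * wpC b (ptS b) ^ 2 - (LP b).g₂ / 2) * (wpC b z - wpC b (ptS b)) + wdC b (ptS b) ^ 2 = 0 :=
    f5 z (hL _ hz) ((inL_LP hb).2 h3z) (hL _ hzp) (hL _ hzm)
  have h2z : 2 * z ∉ Lam b := by
    intro h
    apply hz
    have e : z = 3 * z - 2 * z := by ring
    rw [e]
    exact lam_sub h3z h
  have g3 : (wpC b (2 * z) - wpC b (ptS b)) * wdC b z ^ 2 =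
      (wpC b z - wpC b (ptS b)) ^ 4 - (6 * wpC b (ptS b) ^ 2 - (LP b).g₂ / 2) *
        (wpC b z - wpC b (ptS b)) ^ 2 - 2 * wdC b (ptS b) ^ 2 * (wpC b z - wpC b (ptS b)) :=
    f4 z (hL _ h2z)
  have e2 : wpC b (2 * z) = wpC b z := by
    apply wpC_congr' hb
    right
    have e : 2 * z + z = 3 * z := by ring
    rwa [e]
  rw [e2] at g3
  rw [hp] at g1 g2 g3
  rw [hc, ← hd] at g2 g3
  rw [he] at g2
  have hX : XC b z ≠ 0 := right_ne_zero_of_mul g1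
  refine ⟨hX, ?_, ?_⟩
  · have h : r2 b ^ 3 * (3 * XC b z ^ 3 + AC b ^ 2 * XC b z ^ 2 + 3 * AC b * XC b z + 3) = 0 := by
      linear_combination 3 * g2
    exact (mul_eq_zero.1 h).resolve_left (pow_ne_zero 3 hs)
  · apply mul_left_cancel₀ g1
    rw [g3]
    ring

end Pool.Agent.DT
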