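import Pool.Agent.Lib.DT.B.Spec

/-!
# Module DT/B/Nin: a point of order nine
-/

set_option autoImplicit false

open scoped Pointwise Topology
open Filter

noncomputable section

namespace Pool.Agent.DKB

open Complex Filter Topology

/-! ### Algebra -/

private theorem Nin_R {x u v y c e D : ℂ} (h1 : x * u * v = -D) (h2 : c = x * u + x * v + u * v)
    (h3 : 12 * e * D = c ^ 2) (h4 : y ^ 2 = 4 * x ^ 3 + 12 * e * x ^ 2 + 2 * c * x + D)
    (h5 : v * y ^ 2 = x ^ 4 - c * x ^ 2 - 2 * D * x) (hx : x ≠ 0) (hv : v ≠ 0) :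
    -x * (u - v) ^ 2 = u * (x - u) * (x - v) := by
  have e1 : D * y ^ 2 = x ^ 4 * (u - v) ^ 2 := by
    have e2 : D * y ^ 2 = 4 * D * x ^ 3 + (c * x + D) ^ 2 := by
      rw [h4]
      linear_combination x ^ 2 * h3
    have hD : D = -(x * u * v) := by
      rw [h1, neg_neg]
    rw [e2, h2, hD]
    ring
  have h6 : x ^ 3 * v ≠ 0 := mul_ne_zero (pow_ne_zero 3 hx) hv
  apply mul_left_cancel₀ h6
  have hD : D = -(x * u * v) := by
    rw [h1, neg_neg]
  have e3 : v * (x ^ 4 * (u - v) ^ 2) = D * (x ^ 4 - c * x ^ 2 - 2 * D * x) := by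
    rw [← e1, ← h5]
    ring
  rw [h2, hD] at e3
  linear_combination -e3

private theorem Nin_c {p1 p2 p3 r : ℂ} (h23 : p3 - p2 ≠ 0) (hr : r = p2 * (p3 - p1) / (p3 - p2))
    (R1 : -p1 * (p2 - p3) ^ 2 = p2 * (p1 - p2) * (p1 - p3))
    (R3 : -p2 * (p3 - p1) ^ 2 = p3 * (p2 - p3) * (p2 - p1)) :
    r ^ 3 = -(p1 * p2 * p3) ∧ p2 * (r - p1) = r ^ 2 ∧ p3 * p1 = r * (p1 - r) := by
  have hr' : r * (p3 - p2) = p2 * (p3 - p1) := by
    rw [hr, div_mul_cancel₀ _ h23]
  refine ⟨?_, ?_, ?_⟩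
  · rw [hr, div_pow, div_eq_iff (pow_ne_zero 3 h23)]
    linear_combination (-p2 ^ 2 * (p3 - p1)) * R3 - p2 * p3 * (p3 - p2) * R1
  · apply mul_left_cancel₀ (pow_ne_zero 2 h23)
    linear_combination (p2 * (p3 - p2) - (r * (p3 - p2) + p2 * (p3 - p1))) * hr' + p2 * R3
  · apply mul_left_cancel₀ (pow_ne_zero 2 h23)
    linear_combination (-p1 * (p3 - p2) + (r * (p3 - p2) + p2 * (p3 - p1))) * hr' - p3 * R1

/-! ### The points -/

private theorem Nin_int {L : PeriodPair} {z : ℂ} (h : inL L z) (n : ℤ) : inL L (n * z) := by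
  have := Submodule.smul_mem L.lattice n h
  rwa [zsmul_eq_mul] at this

private theorem Nin_not {L : PeriodPair} {t : ℂ} (h3 : ¬ inL L (3 * t)) (h9 : inL L (9 * t)) (j : ℤ)
    (hj : ¬ (9 : ℤ) ∣ j) : ¬ inL L (j * t) := by
  intro h
  apply h3
  have hg : Int.gcd j 9 ∣ 3 := by
    have h1 : Int.gcd j 9 ∣ 3 ^ 2 := by
      have := Int.gcd_dvd_right j 9
      exact_mod_cast this
    obtain ⟨i, hi, hi'⟩ := (Nat.dvd_prime_pow Nat.prime_three).1 h1
    have h2 : i ≠ 2 := by
      rintro rfl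
      apply hj
      have := Int.gcd_dvd_left j 9
      rw [hi'] at this
      exact_mod_cast this
    have h4 : i ≤ 1 := by omega
    rw [hi']
    calc 3 ^ i ∣ 3 ^ 1 := pow_dvd_pow 3 h4
      _ = 3 := by norm_num
  obtain ⟨x, y, hxy⟩ := Int.gcd_dvd_iff.1 hg
  have e1 : (3 : ℂ) * t = x * (j * t) + y * (9 * t) := by
    have : ((3 : ℕ) : ℂ) = (j : ℂ) * x + 9 * y := by exact_mod_cast congrArg (Int.cast (R := ℂ)) hxy
    push_cast at this
    rw [this]
    ring
  rw [e1]
  exact inL_add (Nin_int h x) (Nin_int h9 y)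

private theorem rr_congr {L : PeriodPair} {z u : ℂ} (h : inL L (z - u)) : rr L z = rr L u := by
  unfold rr
  have e1 : wp L (z + 3 * z) = wp L (u + 3 * u) :=
    wp_congr (by
      have := Nin_int h 4
      rwa [show ((4 : ℤ) : ℂ) * (z - u) = z + 3 * z - (u + 3 * u) by push_cast; ring] at this)
  have e2 : wp L (3 * z) = wp L (3 * u) :=
    wp_congr (by
      have := Nin_int h 3
      rwa [show ((3 : ℤ) : ℂ) * (z - u) = 3 * z - 3 * u by push_cast; ring] at this)
  have e3 : wp L (z - 3 * z) = wp L (u - 3 * u) :=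
    wp_congr (by
      have := Nin_int h (-2)
      rwa [show ((-2 : ℤ) : ℂ) * (z - u) = z - 3 * z - (u - 3 * u) by push_cast; ring] at this)
  rw [e1, e2, e3, wp_congr h]

private theorem rr_neg {L : PeriodPair} (z : ℂ) : rr L (-z) = rr L z := by
  unfold rr
  rw [show -z + 3 * -z = -(z + 3 * z) by ring, show (3 : ℂ) * -z = -(3 * z) by ring,
    show -z - -(3 * z) = -(z - 3 * z) by ring, wp_neg, wp_neg, wp_neg, wp_neg]

private theorem Nin_main {L : PeriodPair} {t : ℂ} (h : G_Flx) (h3 : ¬ inL L (3 * t))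
    (h9 : inL L (9 * t)) : ∃ p1 p2 p3 : ℂ, wp L t - wp L (3 * t) = p1 ∧
      wp L (4 * t) - wp L (3 * t) = p2 ∧ wp L (2 * t) - wp L (3 * t) = p3 ∧
      p1 * p2 * p3 = -wd L (3 * t) ^ 2 ∧ p1 ≠ 0 ∧ p2 ≠ 0 ∧ p3 ≠ 0 ∧
      p1 - p2 ≠ 0 ∧ p1 - p3 ≠ 0 ∧ p3 - p2 ≠ 0 ∧
      -p1 * (p2 - p3) ^ 2 = p2 * (p1 - p2) * (p1 - p3) ∧
      -p2 * (p3 - p1) ^ 2 = p3 * (p2 - p3) * (p2 - p1) := by
  have n (j : ℤ) (hj : ¬ (9 : ℤ) ∣ j) : ¬ inL L (j * t) := Nin_not h3 h9 j hj
  have n1 : ¬ inL L t := by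
    have := n 1 (by norm_num)
    rwa [Int.cast_one, one_mul] at this
  have n2 : ¬ inL L (2 * t) := by exact_mod_cast n 2 (by norm_num)
  have n4 : ¬ inL L (4 * t) := by exact_mod_cast n 4 (by norm_num)
  have n5 : ¬ inL L (5 * t) := by exact_mod_cast n 5 (by norm_num)
  have n6 : ¬ inL L (6 * t) := by exact_mod_cast n 6 (by norm_num)
  have n8 : ¬ inL L (8 * t) := by exact_mod_cast n 8 (by norm_num)
  have h33 : inL L (3 * (3 * t)) := by rwa [show (3 : ℂ) * (3 * t) = 9 * t by ring]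
  obtain ⟨f1, f2, f3, f4, -⟩ := h L (3 * t) h3 h33
  obtain ⟨g1, g2, g3, -⟩ := f3 t n1 (by rwa [show t + 3 * t = 4 * t by ring])
    (by rw [show t - 3 * t = -(2 * t) by ring, inL_neg_iff]; exact n2)
  rw [show t + 3 * t = 4 * t by ring, show t - 3 * t = -(2 * t) by ring, wp_neg] at g2 g3
  -- the values
  have a8 : wp L (8 * t) = wp L t := by
    rw [← wp_neg t]
    exact wp_congr (by rwa [show 8 * t - -t = 9 * t by ring])
  have k1 := f4 t n2
  have k2 := f4 (2 * t) (by rwa [show (2 : ℂ) * (2 * t) = 4 * t by ring])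
  have k3 := f4 (4 * t) (by rwa [show (2 : ℂ) * (4 * t) = 8 * t by ring])
  rw [show (2 : ℂ) * (2 * t) = 4 * t by ring] at k2
  rw [show (2 : ℂ) * (4 * t) = 8 * t by ring, a8] at k3
  have q (z : ℂ) (hz : ¬ inL L z) : wd L z ^ 2 = 4 * (wp L z - wp L (3 * t)) ^ 3 +
      12 * wp L (3 * t) * (wp L z - wp L (3 * t)) ^ 2 +
      2 * (6 * wp L (3 * t) ^ 2 - L.g₂ / 2) * (wp L z - wp L (3 * t)) + wd L (3 * t) ^ 2 := by
    rw [wd_sq hz, wd_sq h3]
    ring
  have q1 := q t n1
  have q2 := q (2 * t) n2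
  have q4 := q (4 * t) n4
  -- separation
  have s (z u : ℂ) (hz : ¬ inL L z) (hu : ¬ inL L u) (h1 : ¬ inL L (z - u)) (h2 : ¬ inL L (z + u)) :
      wp L z ≠ wp L u := by
    intro h0
    rcases ((gInj L).1 z u hz hu).1 h0 with h0 | h0
    · exact h1 h0
    · exact h2 h0
  have s12 : wp L t ≠ wp L (4 * t) := s _ _ n1 n4
    (by rw [show t - 4 * t = -(3 * t) by ring, inL_neg_iff]; exact h3)
    (by rwa [show t + 4 * t = 5 * t by ring])
  have s13 : wp L t ≠ wp L (2 * t) := s _ _ n1 n2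
    (by rw [show t - 2 * t = -t by ring, inL_neg_iff]; exact n1)
    (by rwa [show t + 2 * t = 3 * t by ring])
  have s23 : wp L (2 * t) ≠ wp L (4 * t) := s _ _ n2 n4
    (by rw [show 2 * t - 4 * t = -(2 * t) by ring, inL_neg_iff]; exact n2)
    (by rwa [show 2 * t + 4 * t = 6 * t by ring])
  have hD : wd L (3 * t) ^ 2 ≠ 0 := pow_ne_zero 2 f1
  generalize wd L (3 * t) ^ 2 = D at *
  generalize wd L t = y1 at *
  generalize wd L (2 * t) = y3 at *
  generalize wd L (4 * t) = y2 at *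
  generalize (6 * wp L (3 * t) ^ 2 - L.g₂ / 2) = c at *
  generalize wp L (3 * t) = e at *
  have t12 : wp L t - e - (wp L (4 * t) - e) ≠ 0 := by
    rw [sub_sub_sub_cancel_right]
    exact sub_ne_zero.2 s12
  have t13 : wp L t - e - (wp L (2 * t) - e) ≠ 0 := by
    rw [sub_sub_sub_cancel_right]
    exact sub_ne_zero.2 s13
  have t32 : wp L (2 * t) - e - (wp L (4 * t) - e) ≠ 0 := by
    rw [sub_sub_sub_cancel_right]
    exact sub_ne_zero.2 s23
  generalize wp L t - e = p1 at *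
  generalize wp L (2 * t) - e = p3 at *
  generalize wp L (4 * t) - e = p2 at *
  have hc : c = p1 * p2 + p1 * p3 + p2 * p3 := by
    apply mul_left_cancel₀ g1
    linear_combination -g3 - g2
  have hp2 : p2 ≠ 0 := by
    rintro rfl
    apply hD
    linear_combination g2
  have hp3 : p3 ≠ 0 := by
    rintro rfl
    apply hD
    linear_combination g2
  refine ⟨p1, p2, p3, rfl, rfl, rfl, g2, g1, hp2, hp3, t12, t13, t32, ?_, ?_⟩
  · exact Nin_R g2 hc f2 q1 k1 g1 hp3
  · refine Nin_R (x := p2) (u := p3) (v := p1) (by rw [← g2]; ring) (by rw [hc]; ring) f2 q4 k3 hp2 g1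

theorem tNin (h : G_Flx) : G_Nin := by
  intro L t h3 h9
  obtain ⟨p1, p2, p3, e1, e2, e3, hD, h1, h2, h3', t12, t13, t32, R1, R3⟩ := Nin_main h h3 h9
  have hr : rr L t = p2 * (p3 - p1) / (p3 - p2) := by
    unfold rr
    rw [show t + 3 * t = 4 * t by ring, show t - 3 * t = -(2 * t) by ring, wp_neg, ← e1, ← e2, ← e3]
    ring
  obtain ⟨c1, c2, c3⟩ := Nin_c t32 hr R1 R3
  have hr0 : rr L t ≠ 0 := by
    rw [hr]
    exact div_ne_zero (mul_ne_zero h2 (by rw [← neg_sub]; exact neg_ne_zero.2 t13)) t32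
  refine ⟨hr0, by rw [c1, hD, neg_neg], by rw [e1, e2]; exact c2, by rw [e1, e3]; exact c3, ?_⟩
  intro t' j hj hjt
  -- the representative
  have key : ∃ s : ℂ, (s = 1 ∨ s = 2 ∨ s = 4) ∧ (inL L (t' - s * t) ∨ inL L (-t' - s * t)) := by
    have hm : inL L (t' - ((j % 9 : ℤ) : ℂ) * t) := by
      have e4 : (j : ℂ) = ((j % 9 : ℤ) : ℂ) + 9 * ((j / 9 : ℤ) : ℂ) := by
        exact_mod_cast congrArg (Int.cast (R := ℂ)) (Int.emod_add_mul_ediv j 9).symm
      have := inL_add hjt (Nin_int h9 (j / 9))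
      rwa [show t' - j * t + ((j / 9 : ℤ) : ℂ) * (9 * t) = t' - ((j % 9 : ℤ) : ℂ) * t by
        rw [e4]; ring] at this
    have hlt : j % 9 < 9 := Int.emod_lt_of_pos j (by norm_num)
    have hge : 0 ≤ j % 9 := Int.emod_nonneg j (by norm_num)
    have hn3 : ¬ (3 : ℤ) ∣ j % 9 := by
      intro h0
      apply hj
      have := (Int.dvd_emod_sub_self : (9 : ℤ) ∣ j % 9 - j)
      omega
    generalize j % 9 = i at *
    have hi : i = 1 ∨ i = 2 ∨ i = 4 ∨ i = 5 ∨ i = 7 ∨ i = 8 := by omega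
    rcases hi with rfl | rfl | rfl | rfl | rfl | rfl
    · exact ⟨1, Or.inl rfl, Or.inl (by simpa using hm)⟩
    · exact ⟨2, Or.inr (Or.inl rfl), Or.inl (by simpa using hm)⟩
    · exact ⟨4, Or.inr (Or.inr rfl), Or.inl (by simpa using hm)⟩
    · refine ⟨4, Or.inr (Or.inr rfl), Or.inr ?_⟩
      have := inL_neg (inL_add hm h9)
      rwa [show -(t' - ((5 : ℤ) : ℂ) * t + 9 * t) = -t' - 4 * t by push_cast; ring] at this
    · refine ⟨2, Or.inr (Or.inl rfl), Or.inr ?_⟩
      have := inL_neg (inL_add hm h9)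
      rwa [show -(t' - ((7 : ℤ) : ℂ) * t + 9 * t) = -t' - 2 * t by push_cast; ring] at this
    · refine ⟨1, Or.inl rfl, Or.inr ?_⟩
      have := inL_neg (inL_add hm h9)
      rwa [show -(t' - ((8 : ℤ) : ℂ) * t + 9 * t) = -t' - 1 * t by push_cast; ring] at this
  -- the result for points congruent to `s t`
  have res : ∀ (u s : ℂ), (s = 1 ∨ s = 2 ∨ s = 4) → inL L (u - s * t) →
      rr L u = rr L t ∧ wp L (3 * u) = wp L (3 * t) ∧ wd L (3 * u) ^ 2 = wd L (3 * t) ^ 2 ∧
      ¬ inL L (3 * u) ∧ inL L (9 * u) := by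
    intro u s hs hu
    have hu3 := Nin_int hu 3
    have hu9 := Nin_int hu 9
    rcases hs with rfl | rfl | rfl
    · have g3 : inL L (3 * u - 3 * t) := by
        rwa [show ((3 : ℤ) : ℂ) * (u - 1 * t) = 3 * u - 3 * t by push_cast; ring] at hu3
      refine ⟨rr_congr (by simpa using hu), wp_congr g3, by rw [wd_congr g3], ?_, ?_⟩
      · intro h0
        apply h3
        have := inL_sub h0 g3
        rwa [sub_sub_cancel] at this
      · have := inL_add hu9 h9
        rwa [show ((9 : ℤ) : ℂ) * (u - 1 * t) + 9 * t = 9 * u by push_cast; ring] at this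
    · have g3 : inL L (3 * u - -(3 * t)) := by
        have := inL_add hu3 h9
        rwa [show ((3 : ℤ) : ℂ) * (u - 2 * t) + 9 * t = 3 * u - -(3 * t) by push_cast; ring] at this
      refine ⟨?_, by rw [wp_congr g3, wp_neg], by rw [wd_congr g3, wd_neg, neg_sq], ?_, ?_⟩
      · rw [rr_congr hu, hr]
        unfold rr
        have a8 : wp L (8 * t) = wp L t := by
          rw [← wp_neg t]
          exact wp_congr (by rwa [show 8 * t - -t = 9 * t by ring])
        have a6 : wp L (3 * (2 * t)) = wp L (3 * t) := by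
          rw [← wp_neg (3 * t)]
          exact wp_congr (by rwa [show 3 * (2 * t) - -(3 * t) = 9 * t by ring])
        rw [show 2 * t + 3 * (2 * t) = 8 * t by ring, show 2 * t - 3 * (2 * t) = -(4 * t) by ring, wp_neg,
          a8, a6, e1, show wp L (4 * t) - wp L (2 * t) = p2 - p3 by rw [← e2, ← e3]; ring,
          show wp L (4 * t) - wp L t = p2 - p1 by rw [← e2, ← e1]; ring]
        have t21 : p2 - p1 ≠ 0 := by rw [← neg_sub]; exact neg_ne_zero.2 t12
        field_simp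
        linear_combination R1
      · intro h0
        apply h3
        have := inL_neg (inL_sub h0 g3)
        rwa [show -(3 * u - (3 * u - -(3 * t))) = 3 * t by ring] at this
      · have := inL_add hu9 (Nin_int h9 2)
        rwa [show ((9 : ℤ) : ℂ) * (u - 2 * t) + ((2 : ℤ) : ℂ) * (9 * t) = 9 * u by push_cast; ring] at this
    · have g3 : inL L (3 * u - 3 * t) := by
        have := inL_add hu3 h9
        rwa [show ((3 : ℤ) : ℂ) * (u - 4 * t) + 9 * t = 3 * u - 3 * t by push_cast; ring] at this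
      refine ⟨?_, wp_congr g3, by rw [wd_congr g3], ?_, ?_⟩
      · rw [rr_congr hu, hr]
        unfold rr
        have a8 : wp L (8 * t) = wp L t := by
          rw [← wp_neg t]
          exact wp_congr (by rwa [show 8 * t - -t = 9 * t by ring])
        have a12 : wp L (3 * (4 * t)) = wp L (3 * t) :=
          wp_congr (by rwa [show 3 * (4 * t) - 3 * t = 9 * t by ring])
        have a16 : wp L (16 * t) = wp L (2 * t) := by
          rw [← wp_neg (2 * t)]
          exact wp_congr (by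
            have := Nin_int h9 2
            rwa [show ((2 : ℤ) : ℂ) * (9 * t) = 16 * t - -(2 * t) by push_cast; ring] at this)
        rw [show 4 * t + 3 * (4 * t) = 16 * t by ring, show 4 * t - 3 * (4 * t) = -(8 * t) by ring, wp_neg,
          a8, a12, a16, e3, show wp L t - wp L (4 * t) = p1 - p2 by rw [← e2, ← e1]; ring,
          show wp L t - wp L (2 * t) = p1 - p3 by rw [← e3, ← e1]; ring]
        field_simp
        linear_combination -R3
      · intro h0
        apply h3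
        have := inL_sub h0 g3
        rwa [sub_sub_cancel] at this
      · have := inL_add hu9 (Nin_int h9 4)
        rwa [show ((9 : ℤ) : ℂ) * (u - 4 * t) + ((4 : ℤ) : ℂ) * (9 * t) = 9 * u by push_cast; ring] at this
  obtain ⟨s, hs, hs'⟩ := key
  rcases hs' with hs' | hs'
  · exact res t' s hs hs'
  · obtain ⟨r1, r2, r3, r4, r5⟩ := res (-t') s hs hs'
    rw [rr_neg] at r1
    rw [show (3 : ℂ) * -t' = -(3 * t') by ring] at r2 r3 r4
    rw [wp_neg] at r2
    rw [wd_neg, neg_sq] at r3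
    rw [inL_neg_iff] at r4
    rw [show (9 : ℂ) * -t' = -(9 * t') by ring, inL_neg_iff] at r5
    exact ⟨r1, r2, r3, r4, r5⟩

end Pool.Agent.DKB
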