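import Pool.Agent.Lib.DT.B.Spec

/-!
# Theorem DT, Part B, module Pts: the points `S`, `T`, `t`
-/

set_option autoImplicit false

open scoped Pointwise Topology
open Filter

noncomputable section

namespace Pool.Agent.DT

open Pool.Agent.MuZ Pool.Agent.FW NumberField IsDedekindDomain
open Pool.Agent.DI (io ofC io_inj exists_io io_ofC ofC_io VP MP UP TP ex)
open Pool.Agent.DKB (inL wp wd zt kz KK IsRp IsHf rr)

variable {k t : ℕ}

private theorem Pts_sys [SqT k t] {a b : Ideal (OO k t)} {S : ℂ} (h1 : S ∈ Lam (a * b))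
    (h2 : S ∉ Lam b) (h4 : S + S ∉ Lam b)
    (h3 : ∀ z ∈ Lam (a * b), z ∈ Lam b ∨ z - S ∈ Lam b ∨ z + S ∈ Lam b) : IsSys a b {0, S, -S} := by
  refine ⟨fun u hu => ?_, fun z hz => ?_, fun u hu u' hu' h => ?_⟩
  · rw [Finset.mem_insert, Finset.mem_insert, Finset.mem_singleton] at hu
    rcases hu with rfl | rfl | rfl
    · exact lam_zero _
    · exact h1
    · exact lam_neg h1
  · rcases h3 z hz with h | h | h
    · exact ⟨0, by simp, by rwa [sub_zero]⟩
    · exact ⟨S, by simp, h⟩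
    · exact ⟨-S, by simp, by rwa [sub_neg_eq_add]⟩
  · have h5 : -S ∉ Lam b := fun h => h2 (lam_neg_iff.1 h)
    have h6 : -S - S ∉ Lam b := fun h => h4 (by
      rw [← lam_neg_iff]
      convert h using 1
      ring)
    rw [Finset.mem_insert, Finset.mem_insert, Finset.mem_singleton] at hu hu'
    rcases hu with rfl | rfl | rfl <;> rcases hu' with rfl | rfl | rfl
    · rfl
    · rw [zero_sub] at h
      exact absurd h h5
    · rw [zero_sub, neg_neg] at h
      exact absurd h h2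
    · rw [sub_zero] at h
      exact absurd h h2
    · rfl
    · rw [sub_neg_eq_add] at h
      exact absurd h h4
    · rw [sub_zero] at h
      exact absurd h h5
    · exact absurd h h6
    · rfl

private theorem Pts_ne {b : Ideal (OO k t)} {S : ℂ} (h2 : S ∉ Lam b)
    (h4 : S + S ∉ Lam b) : (0 : ℂ) ≠ S ∧ (0 : ℂ) ≠ -S ∧ S ≠ -S := by
  refine ⟨fun h => ?_, fun h => ?_, fun h => ?_⟩
  · rw [← h] at h2
    exact h2 (lam_zero b)
  · have h5 : S = 0 := neg_eq_zero.1 h.symm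
    rw [h5] at h2
    exact h2 (lam_zero b)
  · have h5 : S + S = 0 := by
      nth_rewrite 2 [h]
      ring
    rw [h5] at h4
    exact h4 (lam_zero b)

private theorem Pts_out [SqT k t] {a b : Ideal (OO k t)} {S : ℂ} (h1 : S ∈ Lam (a * b)) (z : ℂ)
    (hz : z ∉ Lam (a * b)) : z ∉ Lam b ∧ z + S ∉ Lam b ∧ z - S ∉ Lam b := by
  refine ⟨fun h => hz (lam_mono h), fun h => hz ?_, fun h => hz ?_⟩
  · have h5 := lam_sub (lam_mono (a := a) h) h1
    rwa [add_sub_cancel_right] at h5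
  · have h5 := lam_add (lam_mono (a := a) h) h1
    rwa [sub_add_cancel] at h5

theorem sPts : K_Pts := by
  intro k t _ b hb
  obtain ⟨⟨hT1, hT2, -, hT4, hT5⟩, ⟨hS1, hS2, -, hS4, hS5⟩, -⟩ := aL6a k t b hb
  obtain ⟨n1, n2, n3⟩ := Pts_ne hS2 hS4
  obtain ⟨m1, m2, m3⟩ := Pts_ne hT2 hT4
  have e1 := ptST_mem hb
  have e2 := ptST_mem' hb
  refine ⟨Pts_sys hS1 hS2 hS4 hS5, Pts_sys hT1 hT2 hT4 hT5, n1, n2, n3, m1, m2, m3,
    Pts_out hS1, Pts_out hT1, fun z hz h => hz ?_, ?_, fun h => e2 ?_, e1, e2,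
    (aL6 k t b hb).2.2.2.1⟩
  · rw [two_mul]
    exact lam_add h h
  · rw [add_comm]
    exact e1
  · rw [← lam_neg_iff, neg_sub]
    exact h

end Pool.Agent.DT
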