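import Pool.Agent.Lib.DT.B.Spec

/-! # Theorem DT, Part B: duplication of the zeta function (`G_Zdp`) -/

set_option autoImplicit false

open scoped Pointwise Topology
open Filter

noncomputable section

namespace Pool.Agent.DKB

open Complex Filter Topology

private lemma Zdp_tan (h1 : G_Exp) (h2 : G_Zet) (h3 : G_ZadA) {L : PeriodPair} {z : ℂ}
    (hz : ¬ inL L z) (hzz : ¬ inL L (z + z)) :
    (zt L (z + z) - 2 * zt L z) * wd L z = (6 * wp L z ^ 2 - L.g₂ / 2) / 2 := by
  have hder := (h1 L).2.1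
  have l1 : Tendsto (fun w : ℂ => w⁻¹ * (wp L (z + w) - wp L z)) (𝓝[≠] 0) (𝓝 (wd L z)) := by
    have d3 := hasDerivAt_iff_tendsto_slope_zero.1 (hasDerivAt_wp hz)
    exact d3.congr' (Eventually.of_forall fun w => by rw [smul_eq_mul])
  have l2 : Tendsto (fun w : ℂ => w⁻¹ * (wd L (z + w) - wd L z)) (𝓝[≠] 0)
      (𝓝 (6 * wp L z ^ 2 - L.g₂ / 2)) := by
    have d3 := hasDerivAt_iff_tendsto_slope_zero.1 (hder z hz)
    exact d3.congr' (Eventually.of_forall fun w => by rw [smul_eq_mul])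
  have l3 : Tendsto (fun w : ℂ => zt L (z + (z + w)) - zt L z - zt L (z + w)) (𝓝[≠] 0)
      (𝓝 (zt L (z + z) - 2 * zt L z)) := by
    have c1 : ContinuousAt (fun w : ℂ => zt L (z + (z + w))) 0 := by
      have d1 : ContinuousAt (zt L) (z + (z + 0)) := by
        rw [add_zero]
        exact ((h2 L).1 _ hzz).continuousAt
      exact ContinuousAt.comp (f := fun w : ℂ => z + (z + w)) d1 (by fun_prop)
    have c2 : ContinuousAt (fun w : ℂ => zt L (z + w)) 0 := by
      have d1 : ContinuousAt (zt L) (z + 0) := by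
        rw [add_zero]
        exact ((h2 L).1 _ hz).continuousAt
      exact ContinuousAt.comp (f := fun w : ℂ => z + w) d1 (by fun_prop)
    have c3 : ContinuousAt (fun w : ℂ => zt L (z + (z + w)) - zt L z - zt L (z + w)) 0 :=
      (c1.sub continuousAt_const).sub c2
    have c4 := c3.tendsto
    simp only [add_zero] at c4
    have e : zt L (z + z) - 2 * zt L z = zt L (z + z) - zt L z - zt L z := by ring
    rw [e]
    exact c4.mono_left nhdsWithin_le_nhds
  have e1 : ∀ᶠ w in 𝓝[≠] (0 : ℂ), ¬ inL L (z + w) := by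
    have h := (ev_notL (z := z + 0) (by rwa [add_zero]))
    have hc : ContinuousAt (fun w : ℂ => z + w) 0 := by fun_prop
    exact (hc.tendsto.eventually h).filter_mono nhdsWithin_le_nhds
  have e2 : ∀ᶠ w in 𝓝[≠] (0 : ℂ), ¬ inL L (z + (z + w)) := by
    have h := (ev_notL (z := z + (z + 0)) (by rwa [add_zero]))
    have hc : ContinuousAt (fun w : ℂ => z + (z + w)) 0 := by fun_prop
    exact (hc.tendsto.eventually h).filter_mono nhdsWithin_le_nhds
  have l4 := l3.mul l1
  have l5 : Tendsto (fun w : ℂ => (w⁻¹ * (wd L (z + w) - wd L z)) / 2) (𝓝[≠] 0)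
      (𝓝 ((6 * wp L z ^ 2 - L.g₂ / 2) / 2)) := l2.div_const 2
  have l6 : Tendsto (fun w : ℂ => (zt L (z + (z + w)) - zt L z - zt L (z + w)) *
      (w⁻¹ * (wp L (z + w) - wp L z))) (𝓝[≠] 0) (𝓝 ((6 * wp L z ^ 2 - L.g₂ / 2) / 2)) := by
    refine l5.congr' ?_
    filter_upwards [e1, e2] with w w1 w2
    have h6 := h3 L z (z + w) hz w1 w2
    linear_combination w⁻¹ * h6
  exact tendsto_nhds_unique l4 l6

/-- First claim. -/
private lemma Zdp_A (L : PeriodPair) {z : ℂ} (hzz : ¬ inL L (z + z)) :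
    (kz L (z + z) - 2 * kz L z) * wd L z = (6 * wp L z ^ 2 - L.g₂ / 2) / 2 := by
  have hz : ¬ inL L z := fun h => hzz (inL_add h h)
  have h := Zdp_tan gExp gZet gZadA hz hzz
  rw [← h]
  unfold kz
  rw [map_add]
  ring

/-- MODULE `Zdp`. Duplication of the zeta function. -/
theorem tZdp : G_Zdp := by
  intro L
  refine ⟨fun z hzz => Zdp_A L hzz, fun S hS h3 => ?_⟩
  have hSS : ¬ inL L (S + S) := by
    intro h
    apply hS
    have e : S = 3 * S - (S + S) := by ring
    rw [e]
    exact inL_sub h3 h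
  have hn : ¬ inL L (-S) := fun h => hS (inL_neg_iff.1 h)
  have e1 : kz L (S + S) = -kz L S := by
    have e : S + S = -S + 3 * S := by ring
    rw [e, (gKB L).2.1 (-S) (3 * S) hn h3, (gKB L).2.2.1 S]
  have h := Zdp_A L hSS
  rw [e1] at h
  linear_combination 2 * h

end Pool.Agent.DKB
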