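import Pool.Agent.Lib.DT.B.B1
import Pool.Agent.Lib.DT.B.B2
import Pool.Agent.Lib.DT.B.B3
import Pool.Agent.Lib.DT.B.B4
import Pool.Agent.Lib.DT.B.B5
import Pool.Agent.Lib.DT.B.B6
import Pool.Agent.Lib.DT.B.B7
import Pool.Agent.Lib.DT.B.B7a
import Pool.Agent.Lib.DT.B.B7k
import Pool.Agent.Lib.DT.B.B8
import Pool.Agent.Lib.DT.B.B9
import Pool.Agent.Lib.DT.B.B10
import Pool.Agent.Lib.DT.B.B11
import Pool.Agent.Lib.DT.B.B12
import Pool.Agent.Lib.DT.B.B13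
import Pool.Agent.Lib.DT.B.B14
import Pool.Agent.Lib.DT.B.B16
import Pool.Agent.Lib.DT.B.Cst
import Pool.Agent.Lib.DT.B.Dsc
import Pool.Agent.Lib.DT.B.Dv3
import Pool.Agent.Lib.DT.B.Flx
import Pool.Agent.Lib.DT.B.Kz
import Pool.Agent.Lib.DT.B.Nin
import Pool.Agent.Lib.DT.B.Pts
import Pool.Agent.Lib.DT.B.Zdp
import Pool.Agent.Lib.DT.HB

/-!
# Theorem DT, Part B (elliptic functions, `p = 3`): assembly (complete)

`aB1 : S_B1`, ..., `aB16 : S_B16`, `aB7k : S_B7k`, `hB : HB`: all without hypotheses. Also `aKCst : K_Cst`, `aKPts`, `aKKz`,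
`aKDv3`, and `DKB.gDsc`, `gFlx`, `gNin`, `gZdp`.
-/

set_option autoImplicit false

noncomputable section

namespace Pool.Agent.DKB

theorem gDsc : G_Dsc := tDsc
theorem gFlx : G_Flx := tFlx
theorem gNin : G_Nin := tNin gFlx
theorem gZdp : G_Zdp := tZdp

end Pool.Agent.DKB

namespace Pool.Agent.DT

theorem aKCst : K_Cst := sCst DKB.gDsc DKB.gFlx DKB.gNin
theorem aKPts : K_Pts := sPts
theorem aKKz : K_Kz := sKz DKB.gKS DKB.gKB
theorem aKDv3 : K_Dv3 := sDv3 aKCst DKB.gFlx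
theorem aB1 : S_B1 := sB1 aKCst
theorem aB2 : S_B2 := sB2 aKCst
theorem aB3 : S_B3 := sB3 aKCst aB2
theorem aB4 : S_B4 := sB4 aKCst DKB.gFlx DKB.gNin
theorem aB5 : S_B5 := sB5 aKCst aKPts aKDv3 aB2 aB4
theorem aKB7a : K_B7a := sB7a aKCst aKPts aKKz aB2 DKB.gNin
theorem aB6 : S_B6 := sB6 aKCst aKPts aKDv3 aB2 aB3 aB5 aKB7a
theorem aB7 : S_B7 := sB7 aKPts aKDv3 aKB7a aB2 aB6
theorem aB7k : S_B7k := sB7k aKCst aKB7a DKB.gNin
theorem aB8 : S_B8 := sB8 aKCst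
theorem aB9 : S_B9 := sB9 aKCst aKKz
theorem aB10 : S_B10 := sB10 aKCst aKKz
theorem aB14 : S_B14 := sB14
theorem aB11 : S_B11 := sB11 aKCst aKKz aB9 aB10 aB14
theorem aB12 : S_B12 := sB12 aKCst aKKz aB9 aB10 DKB.gZdp
theorem aB13 : S_B13 := sB13 aKCst
theorem aB16 : S_B16 := sB16 aKCst aB14

/-- **Part B is proved.** -/
theorem hB : HB where
  b1 := aB1
  b2 := aB2
  b3 := aB3
  b4 := aB4
  b5 := aB5
  b6 := aB6
  b7 := aB7
  b7k := aB7k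
  b8 := aB8
  b9 := aB9
  b10 := aB10
  b11 := aB11
  b12 := aB12
  b13 := aB13
  b14 := aB14
  b16 := aB16

end Pool.Agent.DT
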