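import Pool.Agent.Lib.DT.B.Spec

/-!
# Theorem DT, Part B, module B1: basic properties
-/

set_option autoImplicit false

open scoped Pointwise Topology
open Filter

noncomputable section

namespace Pool.Agent.DT

open Pool.Agent.MuZ Pool.Agent.FW NumberField IsDedekindDomain
open Pool.Agent.DI (io ofC io_inj exists_io io_ofC ofC_io VP MP UP TP ex)
open Pool.Agent.DKB (inL wp wd zt kz KK IsRp IsHf rr)

theorem sB1 (h1 : K_Cst) : S_B1 := by
  intro k t _ b hb
  obtain ⟨hs, hd, hA, hs3, -, eS, hg2, hg3⟩ := h1 k t b hb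
  obtain ⟨hinj, hzero⟩ := DKB.gInj (LP b)
  have hn : ∀ z : ℂ, z ∉ Lam b → ¬ inL (LP b) z := fun z hz => (notL_LP hb).2 hz
  have hX : ∀ z : ℂ, wpC b z = r2 b * (XC b z + AC b ^ 2 / 12) := by
    intro z
    unfold XC
    rw [mul_add, mul_div_cancel₀ _ hs, eS]
    ring
  have hXS : XC b (ptS b) = 0 := by
    unfold XC
    rw [sub_self, zero_div]
  refine ⟨fun z l hl => ⟨wpC_add hb z hl, wdC_add hb z hl, ?_⟩,
    fun z => ⟨wpC_neg b z, wdC_neg b z, XC_neg b z⟩, hs, hd, hA, hs3, eS, ?_, ?_, hX, ?_, hXS, hg2, hg3⟩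
  · unfold XC
    rw [wpC_add hb z hl]
  · intro z z' hz hz'
    have h := hinj z z' (hn z hz) (hn z' hz')
    rw [inL_LP hb, inL_LP hb, ← wpC_eq] at h
    rw [← h, hX z, hX z']
    constructor
    · intro h4
      rw [h4]
    · intro h4
      exact add_right_cancel (mul_left_cancel₀ hs h4)
  · intro z hz
    have h := hzero z (hn z hz)
    rw [inL_LP hb, ← wdC_eq, ← two_mul] at h
    exact h
  · intro z hz
    refine ⟨?_, wdC_lat hb hz⟩
    have h := hX z
    rw [wpC_lat hb hz] at h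
    have h5 : XC b z + AC b ^ 2 / 12 = 0 := (mul_eq_zero.1 h.symm).resolve_left hs
    linear_combination h5

end Pool.Agent.DT
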