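import Pool.Agent.Lib.DT.B.Lat

/-!
# Theorem DT, Part B (elliptic functions, `p = 3`): statements of the modules (author helper42)

Every module `X` delivers the file `Pool/Agent/Lib/DT/B/X.lean` with the theorem named in its docstring,
with `import Pool.Agent.Lib.DT.B.Spec` and with the statements named there as hypotheses, in that order.
Sections 1: arbitrary lattices (namespace `Pool.Agent.DKB`); sections 2, 3: the lattices `Lam b` (namespace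
`Pool.Agent.DT`); the targets `S_B1` - `S_B16`, `S_B7k` are in `DT/Iface.lean`. Read first: `DT/Defs.lean`,
`DT/B/Lat.lean` (`inL_LP`, `wpC_eq`, `r2_eq`, `IsSys.rp`, `IsHalf.hf`, `wpC_congr`, `wpC_congr'`,
`XC_congr'`, `wdC_congr'`, `ptS_mem`, `three_ptS`, `nine_ptt`, ..), `DT/Base.lean` (`lam_..`, `toC_..`),
`DK/B/Basic.lean`. PROVED, may be used freely: the general library `DKB.gExp`, `gZet`, `gDis`, `gInj`,
`gAdd`, `gSum`, `gScl`, `gUni`, `gKS`, `gKB`, `gPrA`, `gPrB`, `gPrC` (statements `G_Exp`, .. in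
`DK/B/Spec.lean`, theorems in `DK/B/AllG.lean`) and `aO1` - `aO7`, `aO9`, `aL1` - `aL6` (statements in
`DT/IfaceO.lean`).

NOTATION. `S = ptS b`, `T = ptT b`, `s = r2 b`, `A = AC b`, `d = wdC b S`, `e = wpC b S`; `X = XC b z`, so
`℘(z) = s X + e`. The identities between the numbers (steps with `ring`, `linear_combination`) are all
checked. -/

set_option autoImplicit false

open scoped Pointwise Topology
open Filter

noncomputable section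

/-! ## 1. Arbitrary lattices -/

namespace Pool.Agent.DKB

open Complex

/-- MODULE `Dsc` (50 lines): `theorem tDsc : G_Dsc`. THE DISCRIMINANT IS NOT ZERO. PROOF. `gDis`, second
claim, for `ω₁/2`, `ω₂/2` (`notL_h1`, `notL_h2`; `ω₁/2 + ω₂/2` is not in the lattice: Mathlib `PeriodPair`
or `inL_iff` with the linear independence of the periods): `e₁, e₂, e₃` with `e₁ + e₂ + e₃ = 0`, `g₂ = 4
(e₁² + e₁ e₂ + e₂²)`, `g₃ = 4 e₁ e₂ e₃`: `4 x³ - g₂ x - g₃ = 4 (x - e₁)(x - e₂)(x - e₃)` (`ring`), so `x` is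
one of the `e_i`, and then `3 x² - g₂/4 ≠ 0` by the first claim of `gDis`. -/
def G_Dsc : Prop := ∀ (L : PeriodPair) (x : ℂ), 4 * x ^ 3 - L.g₂ * x - L.g₃ = 0 → 12 * x ^ 2 - L.g₂ ≠ 0

/-- MODULE `Flx` (110 lines): `theorem tFlx : G_Flx`. A POINT `S` OF ORDER THREE. PROOF. Write `e = wp S`,
`d = wd S`, `c = 6 e² - g₂/2`, and for a point `z`: `p = wp z - e`, `y = wd z`. (1) `d ≠ 0`: `gInj` (`S + S`
in `L` and `3 S` in `L` give `S` in `L`). (2) `gAdd`, fourth claim, for `S`: `wp (S + S) = wp S`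
(`wp_congr`, `wp_neg`: `S + S - (-S) = 3 S`): `12 e d² = c²`. (3) `wd_sq` for `z` and for `S` (subtract):
`y² = 4 p³ + 12 e p² + 2 c p + d²`. (4) `p ≠ 0`: `gInj` (`z - S`, `z + S` are not in `L`). First two claims
of `gAdd` for `z`, `S`, with `p₊ = wp (z + S) - e`, `p₋ = wp (z - S) - e`: `4 (p₊ + p + 3 e) p² = (y - d)²`,
`4 (p₋ + p + 3 e) p² = (y + d)²`; insert (3): `2 p₊ p² = c p + d² - y d`, `2 p₋ p² = c p + d² + y d`. Sum: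
the second claim; the third is the first of these two. Product, with (3) and (2): `4 p₊ p₋ p⁴ = (c p + d²)²
- y² d² = - 4 d² p³`; cancel `4 p³`. (5) DUPLICATION (`z` is not in `L`, as `2 z` is not): `gAdd`, fourth
claim: `4 (wp (2 z) - e + 2 p + 3 e) y² = (6 p² + 12 e p + c)²`; insert (3), (2) (`two_mul`). (6) If
moreover `3 z` is in `L` then `wp (2 z) = wp z`, so `p y² = p⁴ - c p² - 2 d² p`; cancel `p`, insert (3). -/
def G_Flx : Prop := ∀ (L : PeriodPair) (S : ℂ), ¬ inL L S → inL L (3 * S) →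
  wd L S ≠ 0 ∧ 12 * wp L S * wd L S ^ 2 = (6 * wp L S ^ 2 - L.g₂ / 2) ^ 2 ∧
  (∀ z : ℂ, ¬ inL L z → ¬ inL L (z + S) → ¬ inL L (z - S) →
    wp L z - wp L S ≠ 0 ∧
    (wp L z - wp L S) * (wp L (z + S) - wp L S) * (wp L (z - S) - wp L S) = -wd L S ^ 2 ∧
    ((wp L (z + S) - wp L S) + (wp L (z - S) - wp L S)) * (wp L z - wp L S) ^ 2 =
      (6 * wp L S ^ 2 - L.g₂ / 2) * (wp L z - wp L S) + wd L S ^ 2 ∧
    wd L S * wd L z = (6 * wp L S ^ 2 - L.g₂ / 2) * (wp L z - wp L S) + wd L S ^ 2 -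
      2 * (wp L z - wp L S) ^ 2 * (wp L (z + S) - wp L S)) ∧
  (∀ z : ℂ, ¬ inL L (2 * z) → (wp L (2 * z) - wp L S) * wd L z ^ 2 =
    (wp L z - wp L S) ^ 4 - (6 * wp L S ^ 2 - L.g₂ / 2) * (wp L z - wp L S) ^ 2 -
      2 * wd L S ^ 2 * (wp L z - wp L S)) ∧
  ∀ z : ℂ, ¬ inL L z → inL L (3 * z) → ¬ inL L (z + S) → ¬ inL L (z - S) →
    (wp L z - wp L S) ^ 3 + 4 * wp L S * (wp L z - wp L S) ^ 2 +
      (6 * wp L S ^ 2 - L.g₂ / 2) * (wp L z - wp L S) + wd L S ^ 2 = 0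

/-- MODULE `Nin` (170 lines; uses `G_Flx`): `theorem tNin (h : G_Flx) : G_Nin`. A POINT `t` OF ORDER NINE.
PROOF. `S = 3 t`, `e, d, c` as in `G_Flx`; `p₁ = wp t - e`, `p₂ = wp (4 t) - e`, `p₃ = wp (2 t) - e`; note
`t + 3 t = 4 t`, `wp (t - 3 t) = wp (-(2 t)) = wp (2 t)`, so `r = rr L t = p₂ (p₃ - p₁)/(p₃ - p₂)`. `j t` is
in `L` only if `9 ∣ j`: it suffices that `t, 2 t, 3 t, 4 t, 5 t, 6 t` are not in `L` (each of them would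
give `3 t` in `L`, with `9 t` in `L`). So (`gInj`) `p₁, p₂, p₃` are different. (1) `G_Flx` at `z = t` (`z +
S = 4 t`, `z - S = - 2 t`): `p₁ ≠ 0`, `p₁ p₂ p₃ = - d²`, `(p₂ + p₃) p₁² = c p₁ + d²`, so with `e₁ = p₁ + p₂
+ p₃`: `c = p₁ p₂ + p₁ p₃ + p₂ p₃` (cancel `p₁`). All `p_i ≠ 0` (`d ≠ 0`). (2) `wd_sq` in the form `y² = 4
p³ + 12 e p² + 2 c p + d²`, times `d²`, with `12 e d² = c²`: `d² y_i² = 4 d² p_i³ + (c p_i + d²)²`, and `c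
p₁ + d² = p₁² (p₂ + p₃)` etc. (cyclic): `- d² y₁² = - p₁⁴ (p₂ - p₃)²`, i.e. `d² y₁² = p₁⁴ (p₂ - p₃)²`, and
cyclic. (3) `G_Flx`, duplication, at `t`, `2 t`, `4 t` (`wp (8 t) = wp t`): `p₃ y₁² = p₁⁴ - c p₁² - 2 d² p₁
= p₁² (p₁ - p₂)(p₁ - p₃)`, `p₂ y₃² = p₃² (p₃ - p₁)(p₃ - p₂)`, `p₁ y₂² = p₂² (p₂ - p₁)(p₂ - p₃)`. Multiply by
`d²`, insert (2) and cancel: (R1) `- p₁ (p₂ - p₃)² = p₂ (p₁ - p₂)(p₁ - p₃)`; (R2) `- p₃ (p₁ - p₂)² = p₁ (p₃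
- p₁)(p₃ - p₂)`; (R3) `- p₂ (p₃ - p₁)² = p₃ (p₂ - p₃)(p₂ - p₁)`. (4) CLAIMS. `r ≠ 0`. `r³ = d² = - p₁ p₂
p₃`: multiply by `(p₃ - p₂)³`: `p₂² (p₃ - p₁)³ + p₁ p₃ (p₃ - p₂)³ = 0` from (R1), (R3): `p₁ p₃ (p₃ - p₂)³ =
p₂ p₃ (p₃ - p₂)(p₁ - p₂)(p₃ - p₁)` and `p₂² (p₃ - p₁)³ = - p₂ p₃ (p₃ - p₁)(p₃ - p₂)(p₁ - p₂)`. `p₂ (r - p₁)
= r²`: `r - p₁ = p₃ (p₂ - p₁)/(p₃ - p₂)`, use (R3); `p₃ p₁ = r (p₁ - r)`: use (R1) (multiply by `(p₃ -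
p₂)²`: `field_simp`, `linear_combination`). The same for the cyclic permutations: with `p₂ (r - p₁) = r²`
and `p₃ p₁ = r (p₁ - r)` one gets `p₃ (r - p₂) = r²`, `p₁ p₂ = r (p₂ - r)`, `p₁ (r - p₃) = r²`, `p₂ p₃ = r
(p₃ - r)` (all four from the first two, by `p₁ p₂ p₃ = - r³`, cancelling nonzero factors). (5) `rr L t' = r`
if `t' - j t` is in `L`, `3 ∤ j`: `j` is congruent to `± 1, ± 4, ± 2` modulo `9`; `rr` depends only on `t'`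
modulo `L` and up to sign (`wp_congr`, `wp_neg`); for `4 t` the numbers `(p₁, p₂, p₃)` are replaced by `(p₂,
p₃, p₁)` (`4 (4 t) = 16 t`, congruent to `- 2 t`; `2 (4 t)` to `- t`; `wp (3 (4 t)) = wp (3 t)`), for `2 t`
by `(p₃, p₁, p₂)`; `p₃ (p₁ - p₂)/(p₁ - p₃) = r` by (R3), `p₁ (p₂ - p₃)/(p₂ - p₁) = r` by (R1). -/
def G_Nin : Prop := ∀ (L : PeriodPair) (t : ℂ), ¬ inL L (3 * t) → inL L (9 * t) →
  rr L t ≠ 0 ∧ rr L t ^ 3 = wd L (3 * t) ^ 2 ∧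
  (wp L (4 * t) - wp L (3 * t)) * (rr L t - (wp L t - wp L (3 * t))) = rr L t ^ 2 ∧
  (wp L (2 * t) - wp L (3 * t)) * (wp L t - wp L (3 * t)) =
    rr L t * ((wp L t - wp L (3 * t)) - rr L t) ∧
  ∀ (t' : ℂ) (j : ℤ), ¬ (3 : ℤ) ∣ j → inL L (t' - j * t) →
    rr L t' = rr L t ∧ wp L (3 * t') = wp L (3 * t) ∧ wd L (3 * t') ^ 2 = wd L (3 * t) ^ 2 ∧
    ¬ inL L (3 * t') ∧ inL L (9 * t')

/-- MODULE `Zdp` (90 lines): `theorem tZdp : G_Zdp`. DUPLICATION OF THE ZETA FUNCTION. PROOF. First claim: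
the lemma `Add_tan` in `DK/B/Add.lean` (private there: copy it, 45 lines), for `zt`; in `kz L (z + z) - 2 kz
L z` the linear terms cancel (`map_add`). SECOND CLAIM: `kz (S + S) = - kz S`: `gKB`, second and third claim
(`S + S = - S + 3 S`), `S + S` is not in `L`; so `- 3 kz S wd S = (6 wp S² - g₂/2)/2`. -/
def G_Zdp : Prop := ∀ L : PeriodPair,
  (∀ z : ℂ, ¬ inL L (z + z) → (kz L (z + z) - 2 * kz L z) * wd L z = (6 * wp L z ^ 2 - L.g₂ / 2) / 2) ∧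
  ∀ S : ℂ, ¬ inL L S → inL L (3 * S) → -6 * kz L S * wd L S = 6 * wp L S ^ 2 - L.g₂ / 2

end Pool.Agent.DKB

/-! ## 2. The lattices `Lam b`: points and constants -/

namespace Pool.Agent.DT

open Pool.Agent.MuZ Pool.Agent.FW NumberField IsDedekindDomain
open Pool.Agent.DI (io ofC io_inj exists_io io_ofC ofC_io VP MP UP TP ex)
open Pool.Agent.DKB (inL wp wd zt kz KK IsRp IsHf rr)

/-- MODULE `Cst` (100 lines; uses `G_Dsc`, `G_Flx`, `G_Nin`): `theorem sCst (h1 : DKB.G_Dsc) (h2 :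
DKB.G_Flx) (h3 : DKB.G_Nin) : K_Cst`. THE CONSTANTS. PROOF. `L = LP b`, `t = ptt b`, `S = 3 t` (`ptS_eq`),
`e = ℘(S)`, `d = ℘'(S)`, `c = 6 e² - g₂/2 = w2C b S`. `h3` for `t` (`ptS_mem`, `nine_ptt`; `r2_eq`): `s ≠
0`, `s³ = d²`. `h2` for `S` (`three_ptS`): `d ≠ 0`, `12 e d² = c²`. `AC b = c s/d²`, so `c = s² A`, `12 e s³
= s⁴ A²`, `e = s A²/12`. `g₂ = 12 e² - 2 c`; `g₃ = 4 e³ - g₂ e - d²` (`wd_sq` at `S`). `A³ ≠ 27`: if `A³ =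
27` then `A ≠ 0` and `x = s (- 3/A + A²/12)` satisfies `4 x³ - g₂ x - g₃ = 0` and `12 x² - g₂ = 0` (multiply
by `A³`, `A²`; with `X = - 3/A`: `4 x³ - g₂ x - g₃ = s³ (4 X³ + (A X + 1)²)`, `12 x² - g₂ = 2 s² (6 X² + A²
X + A)`), a contradiction to `h1`. -/
def K_Cst : Prop := ∀ (k t : ℕ) [SqT k t] (b : Ideal (OO k t)), b ≠ ⊥ →
  r2 b ≠ 0 ∧ wdC b (ptS b) ≠ 0 ∧ AC b ^ 3 - 27 ≠ 0 ∧ r2 b ^ 3 = wdC b (ptS b) ^ 2 ∧
  w2C b (ptS b) = r2 b ^ 2 * AC b ∧ wpC b (ptS b) = r2 b * AC b ^ 2 / 12 ∧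
  (LP b).g₂ = r2 b ^ 2 * (AC b ^ 4 - 24 * AC b) / 12 ∧
  (LP b).g₃ = r2 b ^ 3 * (-AC b ^ 6 + 36 * AC b ^ 3 - 216) / 216

/-- MODULE `Pts` (130 lines): `theorem sPts : K_Pts`. THE POINTS. PROOF. (1) `IsSys (ppb) b {0, S, -S}`:
`aL6a`, second part: `mem`, `ex`; `uni`: `S`, `2 S` are not in `Lam b` (`two_ptS`). The cardinality: `0 ≠
S`, `0 ≠ -S`, `S ≠ -S`. The same for `pp`, `T` (first part). (2) If `z` is not in `Lam (ppb b)` then `z`, `z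
+ S`, `z - S` are not in `Lam b` (`lam_mono`, `ptS_mem'`, `lam_sub`, ..); the same for `pp`, `T`; so also
for the points `z` with `2 z` not in `Lam b` one has: `z` not in `Lam b`. (3) `T + S`, `T - S`, `S + T`, `S
- T` are not in `Lam b`: `ptST_mem`, `ptST_mem'`. (4) `α ≠ 0`: directly from `aL6` (fourth part); the last
statement follows by multiplication with `3` (`ptS_eq`). -/
def K_Pts : Prop := ∀ (k t : ℕ) [SqT k t] (b : Ideal (OO k t)), b ≠ ⊥ →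
  IsSys (ppb k t) b {0, ptS b, -ptS b} ∧ IsSys (pp k t) b {0, ptT b, -ptT b} ∧
  (0 : ℂ) ≠ ptS b ∧ (0 : ℂ) ≠ -ptS b ∧ ptS b ≠ -ptS b ∧
  (0 : ℂ) ≠ ptT b ∧ (0 : ℂ) ≠ -ptT b ∧ ptT b ≠ -ptT b ∧
  (∀ z : ℂ, z ∉ Lam (ppb k t * b) → z ∉ Lam b ∧ z + ptS b ∉ Lam b ∧ z - ptS b ∉ Lam b) ∧
  (∀ z : ℂ, z ∉ Lam (pp k t * b) → z ∉ Lam b ∧ z + ptT b ∉ Lam b ∧ z - ptT b ∉ Lam b) ∧
  (∀ z : ℂ, 2 * z ∉ Lam b → z ∉ Lam b) ∧
  ptT b + ptS b ∉ Lam b ∧ ptT b - ptS b ∉ Lam b ∧ ptS b + ptT b ∉ Lam b ∧ ptS b - ptT b ∉ Lam b ∧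
  ∀ α : OO k t, α ≠ 0 →
    (toC α * ptT (sp α * b) - ptT b ∈ Lam b ∨ toC α * ptT (sp α * b) + ptT b ∈ Lam b) ∧
    (toC α * ptS (sp α * b) - ptS b ∈ Lam b ∨ toC α * ptS (sp α * b) + ptS b ∈ Lam b) ∧
    ∃ j : ℤ, ¬ (3 : ℤ) ∣ j ∧ toC α * ptt (sp α * b) - j * ptt b ∈ Lam b

/-- MODULE `Kz` (50 lines; PORT of `DK/B/Kz.lean`): `theorem sKz (h1 : DKB.G_KS) (h2 : DKB.G_KB) : K_Kz`. -/
def K_Kz : Prop := ∀ (k t : ℕ) [SqT k t] (b : Ideal (OO k t)), b ≠ ⊥ →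
  (∀ z : ℂ, Tendsto (fun s => KtC b s z) (𝓝[>] 0) (𝓝 (KC b z))) ∧
  (∀ z : ℂ, z ∉ Lam b → KC b z = kz (LP b) z) ∧ ∀ z : ℂ, z ∈ Lam b → KC b z = 0

/-- MODULE `Dv3` (60 lines; uses `K_Cst`, `G_Flx`): `theorem sDv3 (h1 : K_Cst) (h2 : DKB.G_Flx) : K_Dv3`.
THE THREE DIVISION EQUATION. PROOF. `h2` for `L = LP b`, `S = ptS b`, with `℘(z) - e = s X`, `c = s² A`, `e
= s A²/12`, `d² = s³` (`K_Cst`): the last claim of `G_Flx` divided by `s³`, times `3`; the fourth claim of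
`h2` with `wp (2 z) = wp z`, `wdC² / s³`: second claim here (`s X wd² = s⁴ X⁴ - s² A s² X² - 2 s³ s X`;
cancel `s X ≠ 0`). -/
def K_Dv3 : Prop := ∀ (k t : ℕ) [SqT k t] (b : Ideal (OO k t)), b ≠ ⊥ → ∀ z : ℂ, z ∉ Lam b →
  3 * z ∈ Lam b → z + ptS b ∉ Lam b → z - ptS b ∉ Lam b →
    XC b z ≠ 0 ∧ 3 * XC b z ^ 3 + AC b ^ 2 * XC b z ^ 2 + 3 * AC b * XC b z + 3 = 0 ∧
    wdC b z ^ 2 = r2 b ^ 3 * (XC b z ^ 3 - AC b * XC b z - 2)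

/-! ## 3. The targets -/

/-- MODULE `B2` (60 lines; uses `K_Cst`): `theorem sB2 (h1 : K_Cst) : S_B2`. PROOF. Compare `DK/B/B2.lean`.
`wd_sq`: `℘'² = 4 ℘³ - g₂ ℘ - g₃` with `℘ = s X + s A²/12` and `K_Cst`: `ring` gives `s³ (4 X³ + (A X +
1)²)`. `6 ℘² - g₂/2 = s² (6 X² + A² X + A)` (`ring`): `gExp`, second part. `XC` is `(wp L z - const)/s`:
`analyticAt_wp`, `hasDerivAt_wp`. -/
abbrev M_B2 : Prop := S_B2

/-- MODULE `B3` (110 lines; uses `K_Cst`, `S_B2`): `theorem sB3 (h1 : K_Cst) (h2 : S_B2) : S_B3`. PROOF.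
Compare `DK/B/B3.lean`. `X ≠ X'` by `gInj`. Let `X₊ = XC b (z + z')`, `X₋ = XC b (z - z')`, `w, w'` the
values of `wdC`, `f = WC2 b z = 4 X³ + A² X² + 2 A X + 1`, `f'` the same for `z'`; `3 e = s A²/4`. First two
claims of `gAdd`: `4 s² (s (X₊ + X + X') + s A²/4) (X - X')² = (w - w')²`, the same with `X₋` and `(w +
w')²`. Difference: the third claim. Sum, with `w² = s³ f`, `w'² = s³ f'` (`S_B2`), divided by `2 s³`: `2 (X₊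
+ X₋ + 2 X + 2 X' + A²/2) (X - X')² = f + f'`: this is the first claim (linear arithmetic). Second: let `P =
(X₊ + X₋) (X - X')²`, `Q = (X₊ - X₋) (X - X')²`; `s³ Q = - w w'` gives `Q² = f f'` (divide by `s⁶`), and `P²
- f f' = 4 (X - X')² (X² X'² - A X X' - (X + X'))` (`ring` after inserting the first claim), so `4 X₊ X₋ (X
- X')⁴ = 4 (X - X')² (..)`; cancel. DUPLICATION (`2 z` not in the lattice; `2 z = z + z`): fourth claim of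
`gAdd`: `4 (s X₂ + 2 s X + s A²/4) s³ f = s⁴ (6 X² + A² X + A)²`, `X₂ = XC b (2 z)`, so `4 f X₂ = (6 X² + A²
X + A)² - (8 X + A²) f = 4 (X⁴ - A X² - 2 X)` (`ring`). -/
abbrev M_B3 : Prop := S_B3

/-- MODULE `B4` (120 lines; uses `K_Cst`, `G_Flx`, `G_Nin`): `theorem sB4 (h1 : K_Cst) (h2 : DKB.G_Flx) (h3
: DKB.G_Nin) : S_B4`. PROOF. FIRST PART: third claim of `h2` for `S = ptS b` (`p = s X`, `c = s² A`, `d² =
s³`, cancel powers of `s`; in the last formula `d ℘'(z) = d² (A X + 1 - 2 X² X₊)`, cancel `d ≠ 0`). SECOND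
PART: `L = LP b`, `t = ptt b`, `h3`: `r = rr L t = s`, so with `X₁ = XC b t`, `X₂ = XC b (4 t)`, `X₃ = XC b
(2 t)`: `X₂ (1 - X₁) = 1`, `X₃ X₁ = X₁ - 1`. So `X₁ ≠ 1`, `X₁ ≠ 0` (if `X₁ = 0` then `0 = -1`). By `aL6a`
(last part) `z` is congruent up to sign to `t`, `t + S = 4 t` or `t - S = - 2 t`. If `z` is congruent to `±
t`: `XC b (4 z) = X₂`, `XC b (2 z) = X₃`. If to `± 4 t`: `XC b z = X₂`, `2 z = ± 8 t`, congruent to `∓ t`,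
`4 z` to `± 16 t`, congruent to `∓ 2 t` (`nine_ptt`): `X₃ (1 - X₂) = 1` and `X₁ X₂ = X₂ - 1`: from the two
relations (`X₂ = 1/(1 - X₁)`, `X₃ = (X₁ - 1)/X₁`; `field_simp`). If to `± 2 t`: `XC b z = X₃`, `XC b (2 z) =
X₂`, `XC b (4 z) = XC b (8 t) = X₁`. -/
abbrev M_B4 : Prop := S_B4

/-- MODULE `B1` (90 lines; uses `K_Cst`): `theorem sB1 (h1 : K_Cst) : S_B1`. PROOF. Compare `DK/B/B1.lean`.
Periods, parity: `wpC_add`, `wdC_add`, `wpC_neg`, ... Injectivity, zeros of `wdC`: `gInj` (`XC b z = XC b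
z'` iff `wpC b z = wpC b z'`; `2 * z = z + z`). At lattice points `wpC`, `wdC` are `0` (`wpC_lat`), so `XC b
z = - e/s = - A²/12`. -/
abbrev M_B1 : Prop := S_B1

/-- MODULE `B5` (170 lines; uses `K_Cst`, `K_Pts`, `K_Dv3`, `S_B2`, `S_B4`): `theorem sB5 (h1 : K_Cst) (h2 :
K_Pts) (h3 : K_Dv3) (h4 : S_B2) (h5 : S_B4) : S_B5`. PROOF. `c = ppb b`, `s' = r2 c`, `B = AC c`, `S' = ptS
c`, `T' = ptT c`, `N = A² + 3 A + 9`. `R = {0, S, -S}` (`K_Pts`, `IsSys.rp`). (1) `gSum` (`℘(0) = 0`, `℘(-S)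
= ℘(S)`): for `z` not in `Lam c`: `wpC c z = ℘(z) + ℘(z + S) + ℘(z - S) - 2 e = s (X + X₊ + X₋) + e`, `wdC c
z = ℘'(z) + ℘'(z + S) + ℘'(z - S)`, and `(X₊ + X₋) X² = A X + 1`, `X X₊ X₋ = -1` (`S_B4`). (2) `z = t = ptt
b` (not in `Lam c`: `aL6a`), `u = XC b t`: `t + S = 4 t`, `t - S = - 2 t`, so (`S_B4`, second part) `X₊ =
1/(1 - u)`, `X₋ = (u - 1)/u`; insert in `(X₊ + X₋) u² = A u + 1`: (*) `u³ - (A + 3) u² + A u + 1 = 0` and `u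
+ X₊ + X₋ = A + 3`. As `S'` is congruent to `± t` modulo `Lam c` (`aL6`, first part): `wpC c S' = s (A + 3)
+ e`, `12 wpC c S' = s (A + 6)²`. So for all `z` not in `Lam c`: (**) `(wpC c z - wpC c S') X² = s (X³ - (A
+ 3) X² + A X + 1)`. (3) `z = T = ptT b` (not in `Lam c`; `T'` is congruent to `± T` modulo `Lam c`), `τ =
XC b T`, `K_Dv3`: `3 τ³ + A² τ² + 3 A τ + 3 = 0`, `τ ≠ 0`; so `3 (wpC c T' - wpC c S') = - s N`. (4) For all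
`z` not in `Lam c`: (***) `wdC c z X³ = wdC b z (X³ - A X - 2)`. PROOF: `S_B4`, last formula, with `A X + 1
= X² (X₊ + X₋)`: `℘'(z) = d X² (X₋ - X₊)`; the same formula for `z + S` and `z - S` (`z + S + S` is
congruent to `z - S`, `z - S - S` to `z + S`): `℘'(z + S) = d X₊² (X - X₋)`, `℘'(z - S) = d X₋² (X₊ - X)`.
The sum is `d (X - X₊)(X - X₋)(X₋ - X₊)`, times `X³`: `℘'(z) (X³ - X² (X₊ + X₋) + X X₊ X₋)`. (5) `wdC c S'²
= wdC c t² = s³ N²` (`wdC_congr'`): (***) for `t`, `S_B2`: `wdC c t² u⁶ = s³ (4 u³ + (A u + 1)²) (u³ - A u -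
2)²`. By (*) `A u (u - 1) = u³ - 3 u² + 1` (`u ≠ 0, 1`), so `(4 u³ + (A u + 1)²) (1 - u)² = u² (u² - u +
1)²`, `(u³ - A u - 2) (1 - u) = - (u² - u + 1)²`, `N (u² - u)² = (u² - u + 1)³`: hence `wdC c t² u⁶ (1 - u)⁴
= s³ u² (u² - u + 1)⁶ = s³ N² u⁶ (1 - u)⁴`. (6) `K_Cst` for `c`: `s'³ = wdC c S'² = s³ N²`, `s' ≠ 0`, so `N
≠ 0`; `rhC b = - 3 XC c T' = s N/s'` (definitions and (3)), so `ρ³ = s³ N³/s'³ = N`, `ρ² s = s³ N²/s'² =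
s'`, `ρ ≠ 0`. (**) gives the formula for `XC c z`. (7) `K_Dv3` for `c`, `T'`, with `XC c T' = - ρ/3`: `-
ρ³/9 + B² ρ²/9 - B ρ + 3 = 0`; `12 wpC c S' = s' B²` (`K_Cst`) `= s (A + 6)²`, so `B² ρ² = (A + 6)²`; with
`ρ³ = N`: `9 B ρ = (A + 6)² + 27 - N = 9 (A + 6)`. (8) `dlC c = B + 3/XC c T' = B - 9/ρ`. -/
abbrev M_B5 : Prop := S_B5

/-- MODULE `B7a` (200 lines; uses `K_Cst`, `K_Pts`, `K_Kz`, `S_B2`, `G_Nin`): `theorem sB7a (h1 : K_Cst) (h2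
: K_Pts) (h3 : K_Kz) (h4 : S_B2) (h5 : DKB.G_Nin) : K_B7a`. `S_B7` without the formula for `27 kpC b ^ 3`.
PROOF. Compare `DK/B/B7.lean`. (1) `α ≠ 0`, `c = toC α`, `M = LP (sp α * b)`: `inL M z` iff `inL (LP b) (c
z)` (`inL_LP`, `lam_sp`). `gScl`: `wpC (sp α * b) z = c² wpC b (c z)`, `wdC`: `c³`, `g₂`: `c⁴`, so `w2C (sp
α * b) z = c⁴ w2C b (c z)`. `r2 (sp α * b) = c² rr (LP b) (c ptt (sp α * b))` (`r2_eq`, unfold `rr`, `c³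
..`) `= c² r2 b` by the last claim of `h5` (`K_Pts`: `c ptt (sp α * b) - j ptt b` in `Lam b`, `3 ∤ j`;
`ptS_mem`, `nine_ptt`). `c ptS (sp α * b)` is congruent to `± ptS b`: `XC (sp α * b) z = XC b (c z)`, `AC`
(`wdC_congr'`). `rhC (sp α * b) = - 3 XC (ppb * (sp α * b)) (ptT ..)`, `ppb * (sp α * b) = sp α * (ppb *
b)`: the first claim for `ppb * b` and `K_Pts` for `ppb * b`. `dlC`: the same with `T`. `kpC`: `cjI (sp α *
b) = sp (cjO α) * cjI b` (`aO3`), `toC (cjO α) = conj (toC α)` (`aO2`). `KC`: as in `DK/B/B7.lean`. (2)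
CONJUGATION: `J = cjI b ≠ ⊥`, `cjI J = b` (`aO3`), `inL (LP J) z` iff `inL (LP b) (conj z)` (`aL2`, eighth
claim). `gScl`, second part: `wpC`, `wdC`, `KtC`, `g₂`, `g₃`. `conj S` is congruent to `± ptT J` (`aL6`).
`kpC J = conj (r2 b)/r2 J`. So `conj (XC b z) kpC J = (wpC J (conj z) - wpC J (ptT J))/r2 J`. (3) `kpC b ≠
0`; `kpC b ^ 3 = conj (r2 J)³/s³ = conj (wdC J (ptS J))²/s³ = wdC b (conj (ptS J))²/s³ = wdC b T²/s³ = WC2 b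
T` (`K_Cst` for `J`; `aL6` for `J`; `S_B2`). `conj (kpC b) kpC J = 1`: by definition. LAST: `g₂³ - 27 g₃² =
s⁶ (A³ - 27)` (`K_Cst`, `ring`) for `b` and for `J`, `conj g₂(b) = g₂(J)`, and `kpC J ^ 6 = conj (s)⁶/r2 J ^
6`. -/
def K_B7a : Prop :=
  ∀ (k t : ℕ) [SqT k t] (b : Ideal (OO k t)), b ≠ ⊥ →
    (∀ α : OO k t, α ≠ 0 →
      (∀ z : ℂ, XC (sp α * b) z = XC b (toC α * z) ∧ wdC (sp α * b) z = toC α ^ 3 * wdC b (toC α * z) ∧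
        KC (sp α * b) z = toC α * KC b (toC α * z)) ∧
      AC (sp α * b) = AC b ∧ rhC (sp α * b) = rhC b ∧ dlC (sp α * b) = dlC b ∧
      kpC (sp α * b) = kpC b ∧ r2 (sp α * b) = toC α ^ 2 * r2 b) ∧
    (∀ z : ℂ, (starRingEnd ℂ) (wpC b z) = wpC (cjI b) ((starRingEnd ℂ) z) ∧
      (starRingEnd ℂ) (wdC b z) = wdC (cjI b) ((starRingEnd ℂ) z) ∧
      (starRingEnd ℂ) (KC b z) = KC (cjI b) ((starRingEnd ℂ) z) ∧
      (starRingEnd ℂ) (XC b z) * kpC (cjI b) =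
        XC (cjI b) ((starRingEnd ℂ) z) - XC (cjI b) (ptT (cjI b))) ∧
    kpC b ≠ 0 ∧ kpC b ^ 3 = WC2 b (ptT b) ∧
    (starRingEnd ℂ) (kpC b) * kpC (cjI b) = 1 ∧
    (starRingEnd ℂ) (AC b ^ 3 - 27) * kpC (cjI b) ^ 6 = AC (cjI b) ^ 3 - 27

/-- MODULE `B6` (170 lines; uses `K_Cst`, `K_Pts`, `K_Dv3`, `S_B2`, `S_B3`, `S_B5`, `K_B7a`): `theorem sB6
(h1 : K_Cst) (h2 : K_Pts) (h3 : K_Dv3) (h4 : S_B2) (h5 : S_B3) (h6 : S_B5) (h7 : K_B7a) : S_B6`. PROOF. `c =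
pp b`, `ρ = rhC c`, `B = AC c`, `s' = r2 c`, `τ = XC b T`. (1) `S_B5` for the ideal `c`, with `ppb c = sp 3
* b` (`ppb_pp`) and `K_B7a` (`α = 3`, `toC_three`): `ρ ≠ 0`, `ρ³ = B² + 3 B + 9`, `A ρ = B + 6`, `dlC b ρ =
B - 3`, `9 s = ρ² s'`. `ρ = - 3 XC (ppb c) (ptT (ppb c)) = - 3 XC b (3 ptT (sp 3 * b))` and `3 ptT (sp 3 *
b)` is congruent to `± T` (`K_Pts`): `τ = - ρ/3`. `δ = A + 3/τ`, `3 τ³ + A² τ² + 3 A τ + 3 = 0` (`K_Dv3` for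
`T`, `three_ptT`): `δ³ = A³ + (9 A² τ² + 27 A τ + 27)/τ³ = A³ - 27`. (2) `R = {0, T, -T}`, `gSum`: for `z`
not in `Lam c`: `wpC c z = ℘(z) + ℘(z + T) + ℘(z - T) - 2 ℘(T)`, `wdC c z = ℘'(z) + ℘'(z + T) + ℘'(z - T)`.
`ptS c` is congruent to `± S` modulo `Lam c` (`aL6`, second part; `S` is not in `Lam c`: `aL6a`), so `s' XC
c z = s (X + X(z + T) + X(z - T) - X(S + T) - X(S - T))` (`XC b S = 0`). By `S_B3`: `(X(z + T) + X(z - T))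
(X - τ)² = 2 X τ (X + τ) + A² X τ + A (X + τ) + 1`, `(X(S + T) + X(S - T)) τ² = A τ + 1`. `s' τ² = s` (from
`9 s = ρ² s'`). So `XC c z (X - τ)² = X (τ² X² - (A τ + 1) X - τ)` (uses `3 τ⁴ + A² τ³ + 3 A τ² + 3 τ = 0`),
and with `ρ = - 3 τ`, `B + 3 = - 3 (A τ + 1)` this is the formula. `3 X + ρ = 3 (X - τ) ≠ 0` (`gInj`). (3)
LAST: the formula `XC c z (3 X + ρ)² = X (ρ² X² + 3 (B + 3) X + 3 ρ)` holds on the open set of the `z` not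
in `Lam c`; differentiate (`HasDerivAt.unique`; `S_B2` for `b`, `c`: `XC c` has the derivative `wdC c z/s'`,
`XC b` the derivative `X' = wdC b z/s`), multiply by `3 X + ρ` and insert the formula: `(wdC c z/s') (3 X +
ρ)³ = 3 ρ X' (ρ X³ + ρ² X² + (2 B + 3) X + ρ)`; with `s' = 9 s/ρ²` the claim. -/
abbrev M_B6 : Prop := S_B6

/-- MODULE `B7` (50 lines; uses `K_Pts`, `K_Dv3`, `K_B7a`, `S_B2`, `S_B6`): `theorem sB7 (h1 : K_Pts) (h2 :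
K_Dv3) (h3 : K_B7a) (h4 : S_B2) (h5 : S_B6) : S_B7`. PROOF. `K_B7a` and: with `c = pp b`, `ρ = rhC c`, `B =
AC c`, `τ = XC b T = - ρ/3` (`S_B6`), `K_Dv3` (third claim, for `T`) and `S_B2`: `WC2 b T = τ³ - A τ - 2`
(`r2 b ≠ 0`), so `27 kpC b ^ 3 = - ρ³ + 9 A ρ - 54 = - (B² + 3 B + 9) + 9 (B + 6) - 54 = - (B - 3)²`. -/
abbrev M_B7 : Prop := S_B7

/-- MODULE `B7k` (90 lines; uses `K_Cst`, `K_B7a`, `G_Nin`): `theorem sB7k (h1 : K_Cst) (h2 : K_B7a) (h3 :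
DKB.G_Nin) : S_B7k`. PROOF. `J = cjI b` (`aO3`), `z' = conj z`: in `Lam (ppb ^ 2 * J)`, not in `Lam (ppb *
J)` (`aL2`, eighth claim, with `cjI (pp ^ 2 * b) = ppb ^ 2 * J`: `aO3`, `aO4`). By `aL6a` for `J` (last
part) `z'` is congruent up to sign to `t'`, `t' + S'`, `t' - S'`, `t' = ptt J`, `S' = 3 t'`: to `j t'` with
`j = ± 1, ± 4, ± 2`. `h3` for `L = LP J`, `t'`: `rr L z' = r2 J`, `¬ inL L (3 z')`, `inL L (9 z')`. So `r2 J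
= (wpC J (4 z') - wpC J (3 z')) (wpC J (2 z') - wpC J z')/ (wpC J (2 z') - wpC J (4 z'))` (`rr`, `wp_neg`),
and the denominator is not `0` (`rr ≠ 0`, or `gInj`). Conjugate: `conj (wpC J (n z')) = wpC b (n z)`
(`K_B7a` for `J`, `cjI J = b`, or for `b`), `3 z` is congruent to `± T`: `3 z` is in `Lam (pp b)`, not in
`Lam b` (`aL6a`, first part; `3 z = conj (3 z')`). `kpC b = conj (r2 J)/r2 b`, and `wpC b x - wpC b y = r2 b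
(XC b x - XC b y)`. -/
abbrev M_B7k : Prop := S_B7k

/-- MODULE `B8` (90 lines; uses `K_Cst`): `theorem sB8 (h1 : K_Cst) : S_B8`. PROOF. PORT of `DK/B/B8.lean`
with an arbitrary point `v` in place of `T`: `gPrA`, `gPrB` for `L = LP b`, `M = LP (a b)`, `R`
(`IsSys.rp`): `∏ (wp L (z + u) - wp L v) = (∏ (if u ∈ L then 1 else wp L u - wp L v)) (wp M z - wp M v)`;
`wp L x - wp L y = r2 b (XC b x - XC b y)`; exactly one `u₀` in `R` is in `Lam b`; divide by `r2 b ^ card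
R`. Second claim: `gInj`. -/
abbrev M_B8 : Prop := S_B8

/-- MODULE `B9` (60 lines; uses `K_Cst`, `K_Kz`): `theorem sB9 (h1 : K_Cst) (h2 : K_Kz) : S_B9`. PORT of
`DK/B/B9.lean` (`gSum`, `gKB`). -/
abbrev M_B9 : Prop := S_B9

/-- MODULE `B10` (60 lines; uses `K_Cst`, `K_Kz`): `theorem sB10 (h1 : K_Cst) (h2 : K_Kz) : S_B10`. PORT of
`DK/B/B10.lean` (`gKS`, `gAdd`). -/
abbrev M_B10 : Prop := S_B10

/-- MODULE `B14` (190 lines): `theorem sB14 : S_B14`. PORT of `DK/B/B14.lean` (`aL5` with `n = sN k t 2`). -/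
abbrev M_B14 : Prop := S_B14

/-- MODULE `B11` (140 lines; uses `K_Cst`, `K_Kz`, `S_B9`, `S_B10`, `S_B14`): `theorem sB11 (h1 : K_Cst) (h2
: K_Kz) (h3 : S_B9) (h4 : S_B10) (h5 : S_B14) : S_B11`. PORT of `DK/B/B11.lean`. -/
abbrev M_B11 : Prop := S_B11

/-- MODULE `B12` (170 lines; uses `K_Cst`, `K_Kz`, `S_B9`, `S_B10`, `G_Zdp`): `theorem sB12 (h1 : K_Cst) (h2
: K_Kz) (h3 : S_B9) (h4 : S_B10) (h5 : DKB.G_Zdp) : S_B12`. PROOF. `σ = S0 k t`. (1) `aL6`, last part: `σ`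
is not in `Lam b`, `S - σ` or `S + σ` is in `Lam b` (so `σ - S` or `σ + S`); so `wdC b σ² = d² = s³ ≠ 0`,
`w2C b σ = w2C b S = s² A` (`wpC_congr'`), `XC b σ = XC b S = 0`. `fr b = w2C b σ/wdC b σ` (the condition
holds). (2) `fr b s = s³ A/wdC b σ = A wdC b σ`. `fr b ^ 2 = s⁴ A²/s³`. (3) `3 σ` is in `Lam b`
(`three_ptS`), `KC b σ = kz (LP b) σ` (`K_Kz`); `G_Zdp`, second claim: `- 6 kz σ wd σ = 6 wp σ² - g₂/2 = w2C
b σ`. (4) `α - 1 ∈ ppb`: `sp α * b ≠ ⊥`, `PrI (sp α * b) ppb` (`aO6`); `gScl` with `c = toC α`: `w2C (sp α *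
b) σ = c⁴ w2C b (c σ)`, `wdC`: `c³ wdC b (c σ)`, and `c σ - σ` is in `Lam b` (`aL6`, last part, which holds
for every `b`). `α + 1 ∈ ppb`: `c σ + σ` is in `Lam b`, `wdC` is odd. (5) LAST: `PrI (a * b) ppb` (`aO6`);
`X(u) ≠ 0` for `u ∈ R`, `u` not in `Lam b`: otherwise (`gInj`, `XC b σ = 0`) `u - σ` or `u + σ` is in `Lam
b`, so `σ` is in `Lam (a b)`, but `a b` is prime to `ppb`, so `σ` is not in `Lam (a b)` (`aL6`). By (3) for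
`a b` and `S_B9`: `fr (a b) = - 6 KC (a b) σ = - 6 ∑ u ∈ R, KC b (σ + u)`. The image of `R` under `u ↦ -u`
is also a system (`IsSys`), and `KC b (σ + ·)` depends only on the class modulo `Lam b`, so `∑ u ∈ R, KC b
(σ + u) = ∑ u ∈ R, KC b (σ - u)` (both are `KC (a b) σ` by `S_B9` for the two systems, `Finset.sum_image`).
For `u` not in `Lam b`: `σ ± u` are not in `Lam b`, and (`S_B10`) `KC b (σ + u) + KC b (σ - u) = 2 KC b σ -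
wdC b σ/(s X(u))`; for `u` in `Lam b` it is `2 KC b σ`. Sum, with `card R = NI a` (`aL3` gives one system of
this cardinality; all systems have the same cardinality: `Finset.card_le_card_of_injOn` in both directions,
or see `DK/B/B11.lean`, `B14.lean`): `2 KC (a b) σ = 2 NI a KC b σ - (wdC b σ/s) ∑ 1/X(u)`; multiply by `- 3
A`, use (2): `A wdC b σ/s = fr b`. -/
abbrev M_B12 : Prop := S_B12

/-- MODULE `B13` (90 lines; uses `K_Cst`): `theorem sB13 (h1 : K_Cst) : S_B13`. PORT of `DK/B/B13.lean`: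
`c² = r2 b/r2 b'`, `gScl`, `gUni`; `g₂`, `g₃` by `K_Cst` (they depend only on `r2 b` and `AC b`). -/
abbrev M_B13 : Prop := S_B13

/-- MODULE `B16` (110 lines; uses `K_Cst`, `S_B14`): `theorem sB16 (h1 : K_Cst) (h3 : S_B14) : S_B16`. PORT of
`DK/B/B16.lean` (`gPrC`; `c' = c r2 (l b) ^ card S' / r2 b ^ (card R * card S)`). -/
abbrev M_B16 : Prop := S_B16

end Pool.Agent.DT
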